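import Pool.Agent.H743.CM.Plane

/-!
If `x + i y ↦ F x + i y` is isotopic to the identity on the complement of the Cantor set, then `F`
fixes every point of the Cantor set.
-/

set_option autoImplicit false

open Set Topology unitInterval

namespace Pool.Agent.H743.CM

open Pool.Agent.H659R3.BigMCG

theorem not_gt_of_isotopic {F : Gp} (h : IsotopicToId (hm F)) {c : ℝ} (hc : c ∈ CT) :
    ¬ c < (F : ℝ ≃o ℝ) c := by
  intro hlt
  obtain ⟨Φ, hΦ1, hΦ2, hΦ3⟩ := h
  obtain ⟨x, hx1, hx2, hx3⟩ := CT_Dn c ((F : ℝ ≃o ℝ) c) hlt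
  have hcb := CT_sub hc
  -- the left crossing point
  have hy : c - (c + 2) ∉ CT := by
    intro hcc
    have := (CT_sub hcc).1
    linarith
  have hx : c + (x - c) ∉ CT := by
    rw [show c + (x - c) = x by ring]; exact hx3
  -- the loop in the surface
  let γ : ℝ → SS := fun t => ⟨lp c (x - c) (c + 2) t, lp_notMem hx hy t⟩
  have hγc : Continuous γ := (continuous_lp _ _ _).subtype_mk _
  have hγp : ∀ t, γ (t + 1) = γ t := fun t => Subtype.ext (lp_add_one _ _ _ t)
  -- the Cantor point to wind about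
  have hFc : (F : ℝ ≃o ℝ) c ∈ CT := (F.2 c).2 hc
  have hP : (((F : ℝ ≃o ℝ) c : ℝ) : ℂ) ∈ CC := ⟨Complex.ofReal_im _, by simpa using hFc⟩
  let K : I × ℝ → ℂ := fun p => ((Φ (γ p.2, p.1)).1 : ℂ) - (((F : ℝ ≃o ℝ) c : ℝ) : ℂ)
  have hKc : Continuous K := by
    refine Continuous.sub ?_ continuous_const
    refine continuous_subtype_val.comp (continuous_fst.comp (Φ.continuous.comp ?_))
    exact (hγc.comp continuous_snd).prodMk continuous_fst
  have hK0 : ∀ p, K p ≠ 0 := by
    intro p hp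
    have h1 : ((Φ (γ p.2, p.1)).1 : ℂ) = (((F : ℝ ≃o ℝ) c : ℝ) : ℂ) := sub_eq_zero.1 hp
    exact (Φ (γ p.2, p.1)).1.2 (h1 ▸ hP)
  have hKp : ∀ s t, K (s, t + 1) = K (s, t) := by
    intro s t
    simp only [K, hγp]
  have hKp0 : ∀ t, K (0, t) = lp c (x - c) (c + 2) t - (((F : ℝ ≃o ℝ) c : ℝ) : ℂ) := by
    intro t
    simp only [K]
    rw [hΦ2]
  have hKp1 : ∀ t, K (1, t) = pl F (lp c (x - c) (c + 2) t) - (((F : ℝ ≃o ℝ) c : ℝ) : ℂ) := by
    intro t
    simp only [K]
    rw [hΦ3]
    rfl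
  -- at time `0` the loop does not wind
  have hcos : ∀ t : ℝ, (lp c (x - c) (c + 2) t).re ≤ x := by
    intro t
    change c + (x - c) * max (Real.cos (2 * Real.pi * t)) 0 +
      (c + 2) * min (Real.cos (2 * Real.pi * t)) 0 ≤ x
    have h1 := Real.cos_le_one (2 * Real.pi * t)
    have h2 : max (Real.cos (2 * Real.pi * t)) 0 ≤ 1 := max_le h1 (by norm_num)
    have h3 : min (Real.cos (2 * Real.pi * t)) 0 ≤ 0 := min_le_right _ _
    have h4 : (x - c) * max (Real.cos (2 * Real.pi * t)) 0 ≤ (x - c) * 1 :=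
      mul_le_mul_of_nonneg_left h2 (by linarith)
    have h5 : (c + 2) * min (Real.cos (2 * Real.pi * t)) 0 ≤ 0 :=
      mul_nonpos_of_nonneg_of_nonpos (by linarith) h3
    linarith
  have hw0 : HasWinding (fun t => K (0, t)) 0 := by
    refine hasWinding_zero_of_slit (hKc.comp (by fun_prop)) (fun t => hKp 0 t) (-1) (by norm_num) ?_
    intro t
    left
    rw [hKp0 t]
    have : ((lp c (x - c) (c + 2) t - (((F : ℝ ≃o ℝ) c : ℝ) : ℂ)) / (-1)).re =
        (F : ℝ ≃o ℝ) c - (lp c (x - c) (c + 2) t).re := by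
      rw [div_neg, div_one, Complex.neg_re, Complex.sub_re, Complex.ofReal_re]; ring
    rw [this]
    have := hcos t
    linarith
  have hw1 := hw0.homotopy hKc hK0 hKp 1
  -- at time `1` it winds once
  have hw2 : HasWinding (fun t => K (1, t)) 1 := by
    refine (hasWinding_circ (r := 1) one_pos).of_slit (continuous_circ 1)
      (hKc.comp (by fun_prop)) (fun t => hKp 1 t) ?_
    intro t
    rw [hKp1 t]
    set w : ℂ := circ 1 t with hw
    have hwre : w.re = Real.cos (2 * Real.pi * t) := by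
      rw [hw]; unfold circ
      have : (2 * Real.pi * (t : ℂ) * Complex.I) = ((2 * Real.pi * t : ℝ) : ℂ) * Complex.I := by
        push_cast; ring
      rw [this, Complex.ofReal_one, one_mul, Complex.exp_ofReal_mul_I_re]
    have hwim : w.im = Real.sin (2 * Real.pi * t) := by
      rw [hw]; unfold circ
      have : (2 * Real.pi * (t : ℂ) * Complex.I) = ((2 * Real.pi * t : ℝ) : ℂ) * Complex.I := by
        push_cast; ring
      rw [this, Complex.ofReal_one, one_mul, Complex.exp_ofReal_mul_I_im]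
    have hn : ‖w‖ = 1 := norm_circ zero_le_one t
    have hw0 : w ≠ 0 := by
      intro h; rw [h, norm_zero] at hn; exact zero_ne_one hn
    left
    set z : ℂ := pl F (lp c (x - c) (c + 2) t) - (((F : ℝ ≃o ℝ) c : ℝ) : ℂ) with hz
    have h1 : z / w = (z * (starRingEnd ℂ) w) / ((Complex.normSq w : ℝ) : ℂ) := by
      rw [Complex.normSq_eq_conj_mul_self]
      have : (starRingEnd ℂ) w ≠ 0 := by simpa using hw0
      field_simp
    rw [h1, Complex.div_ofReal_re]
    apply div_pos _ (Complex.normSq_pos.2 hw0)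
    have h2 : (z * (starRingEnd ℂ) w).re = z.re * w.re + z.im * w.im := by
      simp [Complex.mul_re]
    rw [h2]
    have hzre : z.re = (F : ℝ ≃o ℝ) (lp c (x - c) (c + 2) t).re - (F : ℝ ≃o ℝ) c := by
      rw [hz, Complex.sub_re, Complex.ofReal_re]; rfl
    have hzim : z.im = w.im := by
      rw [hz, Complex.sub_im, Complex.ofReal_im, sub_zero, hwim]; rfl
    have hlre : (lp c (x - c) (c + 2) t).re = c + (x - c) * max w.re 0 + (c + 2) * min w.re 0 := by
      rw [hwre]; rfl
    rw [hzim]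
    rcases lt_trichotomy w.re 0 with h | h | h
    · have h3 : (lp c (x - c) (c + 2) t).re < c := by
        rw [hlre, max_eq_right h.le, min_eq_left h.le]
        have : (c + 2) * w.re < 0 := mul_neg_of_pos_of_neg (by linarith) h
        linarith
      have h4 := (F : ℝ ≃o ℝ).lt_iff_lt.2 h3
      have h5 : 0 < z.re * w.re := mul_pos_of_neg_of_neg (by rw [hzre]; linarith) h
      nlinarith [mul_self_nonneg w.im]
    · have h5 : w.im ≠ 0 := by
        intro h6
        exact hw0 (Complex.ext h h6)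
      rw [h, mul_zero, zero_add]
      exact mul_self_pos.2 h5
    · have h3 : c < (lp c (x - c) (c + 2) t).re := by
        rw [hlre, max_eq_left h.le, min_eq_right h.le]
        have : 0 < (x - c) * w.re := mul_pos (by linarith) h
        linarith
      have h4 := (F : ℝ ≃o ℝ).lt_iff_lt.2 h3
      have h5 : 0 < z.re * w.re := mul_pos (by rw [hzre]; linarith) h
      nlinarith [mul_self_nonneg w.im]
  have := hw1.unique hw2
  norm_num at this

theorem isotopic_of_mc {F : Gp} (h : mc F = 1) : IsotopicToId (hm F) := by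
  have h1 : toMap (hmP F) = toMap 1 := by rw [map_one]; exact h
  rw [eq_comm, toMap_eq, inv_one, one_mul] at h1
  exact h1

/-- if the mapping class of `F` is trivial then `F` fixes the Cantor set pointwise -/
theorem fix_of_mc {F : Gp} (h : mc F = 1) {c : ℝ} (hc : c ∈ CT) : (F : ℝ ≃o ℝ) c = c := by
  rcases lt_trichotomy c ((F : ℝ ≃o ℝ) c) with h1 | h1 | h1
  · exact absurd h1 (not_gt_of_isotopic (isotopic_of_mc h) hc)
  · exact h1.symm
  · exfalso
    have h2 : mc F⁻¹ = 1 := by rw [map_inv, h, inv_one]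
    apply not_gt_of_isotopic (isotopic_of_mc h2) hc
    have h3 : ((F⁻¹ : Gp) : ℝ ≃o ℝ) ((F : ℝ ≃o ℝ) c) = c := (F : ℝ ≃o ℝ).symm_apply_apply c
    have h4 := ((F⁻¹ : Gp) : ℝ ≃o ℝ).lt_iff_lt.2 h1
    rw [h3] at h4
    exact h4

/-- homeomorphisms with the same mapping class agree on the Cantor set -/
theorem eq_of_mc {F G : Gp} (h : mc F = mc G) {c : ℝ} (hc : c ∈ CT) :
    (F : ℝ ≃o ℝ) c = (G : ℝ ≃o ℝ) c := by
  have h1 : mc (G⁻¹ * F) = 1 := by rw [map_mul, map_inv, h, inv_mul_cancel]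
  have h2 := fix_of_mc h1 hc
  have h3 : ((G⁻¹ * F : Gp) : ℝ ≃o ℝ) c = (G : ℝ ≃o ℝ).symm ((F : ℝ ≃o ℝ) c) := rfl
  rw [h3, OrderIso.symm_apply_eq] at h2
  exact h2

end Pool.Agent.H743.CM
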