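import Mathlib

/-!
Homogeneous quasimorphisms on a group generated by a subgroup `A` and an element `t` such that `A`
commutes with all its conjugates `t ^ n A t ^ (-n)`, `n ≥ 1`, are homomorphisms. (Such groups are the
quotients of the restricted wreath product of `A` with the integers.)
-/

set_option autoImplicit false

namespace Pool.Agent.H743.CM

/-- a quasimorphism: bounded defect -/
def IsQuasimorphism {G : Type*} [Group G] (φ : G → ℝ) : Prop :=
  ∃ D : ℝ, ∀ g h : G, |φ (g * h) - φ g - φ h| ≤ D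

/-- a homogeneous function on a group -/
def IsHomogeneous {G : Type*} [Group G] (φ : G → ℝ) : Prop :=
  ∀ (g : G) (n : ℤ), φ (g ^ n) = n * φ g

section

variable {G : Type*} [Group G] {φ : G → ℝ}

theorem small_of_mul_le {x D : ℝ} (h : ∀ n : ℕ, n * |x| ≤ D) : x = 0 := by
  by_contra hx
  have h1 : 0 < |x| := abs_pos.2 hx
  obtain ⟨n, hn⟩ := exists_nat_gt (D / |x|)
  rw [div_lt_iff₀ h1] at hn
  exact absurd (h n) (not_le.2 hn)

theorem IsHomogeneous.pow (hφ : IsHomogeneous φ) (g : G) (n : ℕ) : φ (g ^ n) = n * φ g := by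
  have := hφ g n
  simpa using this

theorem IsHomogeneous.one (hφ : IsHomogeneous φ) : φ 1 = 0 := by
  have := hφ 1 0
  simpa using this

theorem conj_pow_bound (g x : G) (n : ℕ) : (g * x * g⁻¹) ^ n = g * x ^ n * g⁻¹ := conj_pow

/-- homogeneous quasimorphisms are conjugation invariant -/
theorem conj_inv (hq : IsQuasimorphism φ) (hφ : IsHomogeneous φ) (g x : G) :
    φ (g * x * g⁻¹) = φ x := by
  obtain ⟨D, hD⟩ := hq
  have hinv : φ g⁻¹ = - φ g := by
    have := hφ g (-1)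
    simpa using this
  have key : φ (g * x * g⁻¹) - φ x = 0 := by
    apply small_of_mul_le (D := 2 * D)
    intro n
    have h1 := hD (g * x ^ n) g⁻¹
    have h2 := hD g (x ^ n)
    rw [← conj_pow_bound, hφ.pow, hinv] at h1
    rw [hφ.pow] at h2
    have h3 : (n : ℝ) * |φ (g * x * g⁻¹) - φ x| = |n * φ (g * x * g⁻¹) - n * φ x| := by
      rw [← mul_sub, abs_mul, Nat.abs_cast]
    rw [h3]
    rw [abs_le] at h1 h2 ⊢
    constructor <;> linarith [h1.1, h1.2, h2.1, h2.2]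
  linarith

/-- additivity on commuting pairs -/
theorem add_of_commute (hq : IsQuasimorphism φ) (hφ : IsHomogeneous φ) {g h : G}
    (hc : Commute g h) : φ (g * h) = φ g + φ h := by
  obtain ⟨D, hD⟩ := hq
  have key : φ (g * h) - φ g - φ h = 0 := by
    apply small_of_mul_le (D := D)
    intro n
    have h1 := hD (g ^ n) (h ^ n)
    rw [← hc.mul_pow, hφ.pow, hφ.pow, hφ.pow] at h1
    have h3 : (n : ℝ) * |φ (g * h) - φ g - φ h| = |n * φ (g * h) - n * φ g - n * φ h| := by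
      rw [← mul_sub, ← mul_sub, abs_mul, Nat.abs_cast]
    rw [h3]; exact h1
  linarith

/-- the diagonal product `x · t x t⁻¹ ⋯ t^(n-1) x t^(-(n-1))` -/
def dg (t x : G) : ℕ → G
  | 0 => 1
  | n + 1 => dg t x n * (t ^ n * x * (t ^ n)⁻¹)

theorem dg_zero (t x : G) : dg t x 0 = 1 := rfl
theorem dg_succ (t x : G) (n : ℕ) : dg t x (n + 1) = dg t x n * (t ^ n * x * (t ^ n)⁻¹) := rfl

/-- If `A` commutes with its conjugates under positive powers of `t`, then homogeneous quasimorphisms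
are additive on `A`. -/
theorem additive_on (hq : IsQuasimorphism φ) (hφ : IsHomogeneous φ) (A : Subgroup G) (t : G)
    (hA : ∀ n : ℕ, 0 < n → ∀ a ∈ A, ∀ b ∈ A, Commute a (t ^ n * b * (t ^ n)⁻¹)) {x y : G}
    (hx : x ∈ A) (hy : y ∈ A) : φ (x * y) = φ x + φ y := by
  -- elements of the diagonal commute with later conjugates
  have hcomm : ∀ (n m : ℕ), n < m → ∀ a ∈ A, ∀ b ∈ A,
      Commute (t ^ n * a * (t ^ n)⁻¹) (t ^ m * b * (t ^ m)⁻¹) := by
    intro n m hnm a ha b hb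
    obtain ⟨k, hk, rfl⟩ : ∃ k, 0 < k ∧ m = n + k := ⟨m - n, by omega, by omega⟩
    have h1 := hA k hk a ha b hb
    have h2 : t ^ (n + k) * b * (t ^ (n + k))⁻¹ = t ^ n * (t ^ k * b * (t ^ k)⁻¹) * (t ^ n)⁻¹ := by
      rw [pow_add]; group
    rw [h2]
    show t ^ n * a * (t ^ n)⁻¹ * (t ^ n * (t ^ k * b * (t ^ k)⁻¹) * (t ^ n)⁻¹) =
      t ^ n * (t ^ k * b * (t ^ k)⁻¹) * (t ^ n)⁻¹ * (t ^ n * a * (t ^ n)⁻¹)
    have e1 : t ^ n * a * (t ^ n)⁻¹ * (t ^ n * (t ^ k * b * (t ^ k)⁻¹) * (t ^ n)⁻¹) =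
        t ^ n * (a * (t ^ k * b * (t ^ k)⁻¹)) * (t ^ n)⁻¹ := by group
    have e2 : t ^ n * (t ^ k * b * (t ^ k)⁻¹) * (t ^ n)⁻¹ * (t ^ n * a * (t ^ n)⁻¹) =
        t ^ n * ((t ^ k * b * (t ^ k)⁻¹) * a) * (t ^ n)⁻¹ := by group
    rw [e1, e2, h1.eq]
  have hdg : ∀ (a : G), a ∈ A → ∀ (b : G), b ∈ A → ∀ n m : ℕ, n ≤ m →
      Commute (dg t a n) (t ^ m * b * (t ^ m)⁻¹) := by
    intro a ha b hb n
    induction n with
    | zero => intro m _; rw [dg_zero]; exact Commute.one_left _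
    | succ n ih =>
      intro m hm
      rw [dg_succ]
      exact (ih m (by omega)).mul_left (hcomm n m (by omega) a ha b hb)
  have hmul : ∀ n : ℕ, dg t (x * y) n = dg t x n * dg t y n := by
    intro n
    induction n with
    | zero => simp [dg_zero]
    | succ n ih =>
      rw [dg_succ, dg_succ, dg_succ, ih]
      have e1 : t ^ n * (x * y) * (t ^ n)⁻¹ = (t ^ n * x * (t ^ n)⁻¹) * (t ^ n * y * (t ^ n)⁻¹) := by
        group
      have e2 := (hdg y hy x hx n n le_rfl).eq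
      rw [e1]
      calc dg t x n * dg t y n * (t ^ n * x * (t ^ n)⁻¹ * (t ^ n * y * (t ^ n)⁻¹))
          = dg t x n * (dg t y n * (t ^ n * x * (t ^ n)⁻¹)) * (t ^ n * y * (t ^ n)⁻¹) := by group
        _ = dg t x n * ((t ^ n * x * (t ^ n)⁻¹) * dg t y n) * (t ^ n * y * (t ^ n)⁻¹) := by rw [e2]
        _ = _ := by group
  have hval : ∀ a ∈ A, ∀ n : ℕ, φ (dg t a n) = n * φ a := by
    intro a ha n
    induction n with
    | zero => rw [dg_zero, hφ.one]; simp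
    | succ n ih =>
      rw [dg_succ, add_of_commute hq hφ (hdg a ha a ha n n le_rfl), ih, conj_inv hq hφ]
      push_cast; ring
  obtain ⟨D, hD⟩ := hq
  have key : φ (x * y) - φ x - φ y = 0 := by
    apply small_of_mul_le (D := D)
    intro n
    have h1 := hD (dg t x n) (dg t y n)
    rw [← hmul, hval _ (A.mul_mem hx hy), hval _ hx, hval _ hy] at h1
    have h3 : (n : ℝ) * |φ (x * y) - φ x - φ y| = |n * φ (x * y) - n * φ x - n * φ y| := by
      rw [← mul_sub, ← mul_sub, abs_mul, Nat.abs_cast]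
    rw [h3]; exact h1
  linarith

/-- the union of the conjugates `t^i A t^(-i)`, `|i| ≤ m` -/
def cj (A : Subgroup G) (t : G) (m : ℕ) : Set G :=
  {x | ∃ i : ℤ, |i| ≤ m ∧ ∃ a ∈ A, x = t ^ i * a * (t ^ i)⁻¹}

/-- the subgroup generated by the conjugates `t^i A t^(-i)`, `|i| ≤ m` -/
def Bm (A : Subgroup G) (t : G) (m : ℕ) : Subgroup G := Subgroup.closure (cj A t m)

theorem Bm_mono (A : Subgroup G) (t : G) {m n : ℕ} (h : m ≤ n) : Bm A t m ≤ Bm A t n := by
  apply Subgroup.closure_mono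
  rintro x ⟨i, hi, a, ha, rfl⟩
  exact ⟨i, hi.trans (by exact_mod_cast h), a, ha, rfl⟩

theorem commute_closure {S T : Set G} (h : ∀ x ∈ S, ∀ y ∈ T, Commute x y) {x y : G}
    (hx : x ∈ Subgroup.closure S) (hy : y ∈ Subgroup.closure T) : Commute x y := by
  have h1 : Subgroup.closure T ≤ Subgroup.centralizer (Subgroup.closure S : Set G) := by
    rw [Subgroup.closure_le]
    intro y hy
    rw [SetLike.mem_coe, Subgroup.mem_centralizer_iff]
    intro z hz
    have h2 : Subgroup.closure S ≤ Subgroup.centralizer {y} := by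
      rw [Subgroup.closure_le]
      intro z hz
      rw [SetLike.mem_coe, Subgroup.mem_centralizer_singleton_iff]
      exact (h z hz y hy).eq
    exact (Subgroup.mem_centralizer_singleton_iff.1 (h2 hz))
  have := Subgroup.mem_centralizer_iff.1 (h1 hy) x hx
  exact this

/-- conjugation by `s` maps `closure S` into `closure (s S s⁻¹)` -/
theorem conj_mem_closure {S : Set G} (s : G) {x : G} (hx : x ∈ Subgroup.closure S) :
    s * x * s⁻¹ ∈ Subgroup.closure ((fun z => s * z * s⁻¹) '' S) := by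
  induction hx using Subgroup.closure_induction with
  | mem z hz => exact Subgroup.subset_closure ⟨z, hz, rfl⟩
  | one => simp
  | mul a b _ _ ha hb =>
    have : s * (a * b) * s⁻¹ = (s * a * s⁻¹) * (s * b * s⁻¹) := by group
    rw [this]; exact Subgroup.mul_mem _ ha hb
  | inv a _ ha =>
    have : s * a⁻¹ * s⁻¹ = (s * a * s⁻¹)⁻¹ := by group
    rw [this]; exact Subgroup.inv_mem _ ha

theorem Bm_additive (hq : IsQuasimorphism φ) (hφ : IsHomogeneous φ) (A : Subgroup G) (t : G)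
    (hA : ∀ n : ℕ, 0 < n → ∀ a ∈ A, ∀ b ∈ A, Commute a (t ^ n * b * (t ^ n)⁻¹)) (m : ℕ) {x y : G}
    (hx : x ∈ Bm A t m) (hy : y ∈ Bm A t m) : φ (x * y) = φ x + φ y := by
  refine additive_on hq hφ (Bm A t m) (t ^ (2 * m + 1)) ?_ hx hy
  intro n hn a ha b hb
  have hb' := conj_mem_closure ((t ^ (2 * m + 1)) ^ n) hb
  refine commute_closure ?_ ha hb'
  rintro u ⟨i, hi, a', ha', rfl⟩ v ⟨w, ⟨j, hj, b', hb'', rfl⟩, rfl⟩
  -- reduce to `hA`
  have hij : 0 < ((2 * m + 1) * n : ℕ) + j - i := by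
    rw [abs_le] at hi hj
    have : (2 * (m : ℤ) + 1) ≤ (2 * m + 1) * n := by
      have : (1 : ℤ) ≤ n := by exact_mod_cast hn
      nlinarith
    push_cast
    linarith [hi.1, hi.2, hj.1, hj.2]
  obtain ⟨k, hk⟩ := Int.eq_ofNat_of_zero_le hij.le
  have hk0 : 0 < k := by
    rw [hk] at hij
    exact_mod_cast hij
  have h1 := hA k hk0 a' ha' b' hb''
  have e1 : (t ^ (2 * m + 1)) ^ n * (t ^ j * b' * (t ^ j)⁻¹) * ((t ^ (2 * m + 1)) ^ n)⁻¹ =
      t ^ i * (t ^ k * b' * (t ^ k)⁻¹) * (t ^ i)⁻¹ := by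
    have e2 : (t ^ (2 * m + 1)) ^ n * t ^ j = t ^ i * t ^ k := by
      rw [← pow_mul, ← zpow_natCast t ((2 * m + 1) * n), ← zpow_natCast t k, ← zpow_add,
        ← zpow_add]
      congr 1
      linarith
    calc (t ^ (2 * m + 1)) ^ n * (t ^ j * b' * (t ^ j)⁻¹) * ((t ^ (2 * m + 1)) ^ n)⁻¹
        = ((t ^ (2 * m + 1)) ^ n * t ^ j) * b' * ((t ^ (2 * m + 1)) ^ n * t ^ j)⁻¹ := by group
      _ = (t ^ i * t ^ k) * b' * (t ^ i * t ^ k)⁻¹ := by rw [e2]
      _ = _ := by group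
  show t ^ i * a' * (t ^ i)⁻¹ * ((t ^ (2 * m + 1)) ^ n * (t ^ j * b' * (t ^ j)⁻¹) *
      ((t ^ (2 * m + 1)) ^ n)⁻¹) = ((t ^ (2 * m + 1)) ^ n * (t ^ j * b' * (t ^ j)⁻¹) *
      ((t ^ (2 * m + 1)) ^ n)⁻¹) * (t ^ i * a' * (t ^ i)⁻¹)
  rw [e1]
  have e3 : t ^ i * a' * (t ^ i)⁻¹ * (t ^ i * (t ^ k * b' * (t ^ k)⁻¹) * (t ^ i)⁻¹) =
      t ^ i * (a' * (t ^ k * b' * (t ^ k)⁻¹)) * (t ^ i)⁻¹ := by group
  have e4 : t ^ i * (t ^ k * b' * (t ^ k)⁻¹) * (t ^ i)⁻¹ * (t ^ i * a' * (t ^ i)⁻¹) =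
      t ^ i * ((t ^ k * b' * (t ^ k)⁻¹) * a') * (t ^ i)⁻¹ := by group
  rw [e3, e4, h1.eq]

/-- the normal closure of `A` under conjugation by powers of `t` -/
def BB (A : Subgroup G) (t : G) : Subgroup G where
  carrier := {x | ∃ m, x ∈ Bm A t m}
  one_mem' := ⟨0, Subgroup.one_mem _⟩
  mul_mem' := by
    rintro a b ⟨m, ha⟩ ⟨n, hb⟩
    exact ⟨max m n, Subgroup.mul_mem _ (Bm_mono A t (le_max_left _ _) ha)
      (Bm_mono A t (le_max_right _ _) hb)⟩
  inv_mem' := by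
    rintro a ⟨m, ha⟩
    exact ⟨m, Subgroup.inv_mem _ ha⟩

theorem BB_additive (hq : IsQuasimorphism φ) (hφ : IsHomogeneous φ) (A : Subgroup G) (t : G)
    (hA : ∀ n : ℕ, 0 < n → ∀ a ∈ A, ∀ b ∈ A, Commute a (t ^ n * b * (t ^ n)⁻¹)) {x y : G}
    (hx : x ∈ BB A t) (hy : y ∈ BB A t) : φ (x * y) = φ x + φ y := by
  obtain ⟨m, hx⟩ := hx
  obtain ⟨n, hy⟩ := hy
  exact Bm_additive hq hφ A t hA (max m n) (Bm_mono A t (le_max_left _ _) hx)
    (Bm_mono A t (le_max_right _ _) hy)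

theorem BB_conj (A : Subgroup G) (t : G) (k : ℤ) {x : G} (hx : x ∈ BB A t) :
    t ^ k * x * (t ^ k)⁻¹ ∈ BB A t := by
  obtain ⟨m, hx⟩ := hx
  refine ⟨m + k.natAbs, ?_⟩
  have := conj_mem_closure (t ^ k) hx
  refine Subgroup.closure_mono ?_ this
  rintro _ ⟨_, ⟨i, hi, a, ha, rfl⟩, rfl⟩
  refine ⟨k + i, ?_, a, ha, ?_⟩
  · refine (abs_add_le _ _).trans ?_
    push_cast
    have : |k| = (k.natAbs : ℤ) := Int.abs_eq_natAbs k
    linarith
  · rw [zpow_add]; group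

theorem A_le_BB (A : Subgroup G) (t : G) {a : G} (ha : a ∈ A) : a ∈ BB A t :=
  ⟨0, Subgroup.subset_closure ⟨0, by simp, a, ha, by simp⟩⟩

/-- the subgroup of all `x t ^ k`, `x ∈ BB` -/
def HH (A : Subgroup G) (t : G) : Subgroup G where
  carrier := {g | ∃ x ∈ BB A t, ∃ k : ℤ, g = x * t ^ k}
  one_mem' := ⟨1, Subgroup.one_mem _, 0, by simp⟩
  mul_mem' := by
    rintro _ _ ⟨x, hx, k, rfl⟩ ⟨y, hy, l, rfl⟩
    refine ⟨x * (t ^ k * y * (t ^ k)⁻¹), Subgroup.mul_mem _ hx (BB_conj A t k hy), k + l, ?_⟩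
    rw [zpow_add]; group
  inv_mem' := by
    rintro _ ⟨x, hx, k, rfl⟩
    refine ⟨t ^ (-k) * x⁻¹ * (t ^ (-k))⁻¹, BB_conj A t (-k) (Subgroup.inv_mem _ hx), -k, ?_⟩
    group

theorem phi_HH (hq : IsQuasimorphism φ) (hφ : IsHomogeneous φ) (A : Subgroup G) (t : G)
    (hA : ∀ n : ℕ, 0 < n → ∀ a ∈ A, ∀ b ∈ A, Commute a (t ^ n * b * (t ^ n)⁻¹)) {x : G}
    (hx : x ∈ BB A t) (k : ℤ) : φ (x * t ^ k) = φ x + k * φ t := by
  -- powers of `x t^k`
  have hpow : ∀ n : ℕ, ∃ z ∈ BB A t, (x * t ^ k) ^ n = z * t ^ (k * n) ∧ φ z = n * φ x := by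
    intro n
    induction n with
    | zero => exact ⟨1, Subgroup.one_mem _, by simp, by rw [hφ.one]; simp⟩
    | succ n ih =>
      obtain ⟨z, hz, h1, h2⟩ := ih
      refine ⟨z * (t ^ (k * n) * x * (t ^ (k * n))⁻¹), Subgroup.mul_mem _ hz (BB_conj A t _ hx),
        ?_, ?_⟩
      · rw [pow_succ, h1, show k * ((n + 1 : ℕ) : ℤ) = k * n + k by push_cast; ring, zpow_add]
        group
      · rw [BB_additive hq hφ A t hA hz (BB_conj A t _ hx), h2, conj_inv hq hφ]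
        push_cast; ring
  obtain ⟨D, hD⟩ := hq
  have key : φ (x * t ^ k) - φ x - k * φ t = 0 := by
    apply small_of_mul_le (D := D)
    intro n
    obtain ⟨z, hz, h1, h2⟩ := hpow n
    have h3 := hD z (t ^ (k * n))
    rw [← h1, hφ.pow, h2, hφ] at h3
    have h4 : (n : ℝ) * |φ (x * t ^ k) - φ x - k * φ t| =
        |n * φ (x * t ^ k) - n * φ x - ((k * n : ℤ) : ℝ) * φ t| := by
      rw [← Nat.abs_cast n, ← abs_mul]
      congr 1
      push_cast
      rw [Nat.abs_cast]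
      ring
    rw [h4]; exact h3
  linarith

/-- **Homogeneous quasimorphisms on quotients of wreath products with the integers.** If `G` is
generated by a subgroup `A` and an element `t` such that `A` commutes with all the conjugates
`t ^ n A t ^ (-n)`, `n ≥ 1`, then every homogeneous quasimorphism on `G` is a homomorphism. -/
theorem quasi_hom (hq : IsQuasimorphism φ) (hφ : IsHomogeneous φ) (A : Subgroup G) (t : G)
    (hgen : Subgroup.closure ((A : Set G) ∪ {t}) = ⊤)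
    (hA : ∀ n : ℕ, 0 < n → ∀ a ∈ A, ∀ b ∈ A, Commute a (t ^ n * b * (t ^ n)⁻¹)) (g h : G) :
    φ (g * h) = φ g + φ h := by
  have htop : HH A t = ⊤ := by
    rw [eq_top_iff, ← hgen, Subgroup.closure_le]
    rintro x (hx | hx)
    · exact ⟨x, A_le_BB A t hx, 0, by simp⟩
    · rw [Set.mem_singleton_iff.1 hx]
      exact ⟨1, Subgroup.one_mem _, 1, by simp⟩
  obtain ⟨x, hx, k, rfl⟩ : g ∈ HH A t := by rw [htop]; trivial
  obtain ⟨y, hy, l, rfl⟩ : h ∈ HH A t := by rw [htop]; trivial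
  have e1 : x * t ^ k * (y * t ^ l) = (x * (t ^ k * y * (t ^ k)⁻¹)) * t ^ (k + l) := by
    rw [zpow_add]; group
  rw [e1, phi_HH hq hφ A t hA (Subgroup.mul_mem _ hx (BB_conj A t k hy)),
    BB_additive hq hφ A t hA hx (BB_conj A t k hy), conj_inv hq hφ, phi_HH hq hφ A t hA hx,
    phi_HH hq hφ A t hA hy]
  push_cast
  ring

end

end Pool.Agent.H743.CM
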