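import Pool.Agent.H743.CM.Detect
import Pool.Agent.H743.CM.Quasi

/-!
The three mapping classes `α`, `β`, `τ` of the plane minus a Cantor set; the group they generate is
not amenable and all its homogeneous quasimorphisms are homomorphisms.
-/

set_option autoImplicit false

open Set Topology

namespace Pool.Agent.H743.CM

open Pool.Agent.H659R3.BigMCG

/-- von Neumann amenability of a discrete group: a finitely additive left-invariant probability
measure defined on all subsets -/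
def IsAmenable (G : Type*) [Group G] : Prop :=
  ∃ μ : Set G → ℝ, (∀ A, 0 ≤ μ A) ∧ μ Set.univ = 1 ∧
    (∀ A B : Set G, Disjoint A B → μ (A ∪ B) = μ A + μ B) ∧
    ∀ (g : G) (A : Set G), μ ((fun x => g * x) '' A) = μ A

theorem not_amenable {G X : Type*} [Group G] (A : Subgroup G) {α β : G} (hα : α ∈ A) (hβ : β ∈ A)
    (κ : A → X) (fa fb : X → X) (ha : ∀ g : A, κ (⟨α, hα⟩ * g) = fa (κ g))
    (hb : ∀ g : A, κ (⟨β, hβ⟩ * g) = fb (κ g)) (Xa Ya Xb Yb : Set X)
    (h1 : Disjoint Xa Ya) (h2 : Disjoint (Xa ∪ Ya) Xb) (h3 : Disjoint (Xa ∪ Ya ∪ Xb) Yb)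
    (pa : ∀ x, x ∉ Ya → fa x ∈ Xa) (pb : ∀ x, x ∉ Yb → fb x ∈ Xb) : ¬ IsAmenable G := by
  rintro ⟨μ, μ0, μ1, μadd, μinv⟩
  -- the coset representative
  let r : G → G := fun h => Quotient.out (Quotient.mk (QuotientGroup.rightRel A) h)
  have hr1 : ∀ h, h * (r h)⁻¹ ∈ A := by
    intro h
    have h4 : (QuotientGroup.rightRel A) (r h) h :=
      Quotient.exact (Quotient.out_eq (Quotient.mk (QuotientGroup.rightRel A) h))
    exact QuotientGroup.rightRel_apply.1 h4
  have hr2 : ∀ (a : G), a ∈ A → ∀ h, r (a * h) = r h := by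
    intro a haA h
    have h4 : Quotient.mk (QuotientGroup.rightRel A) (a * h) =
        Quotient.mk (QuotientGroup.rightRel A) h := by
      apply Quotient.sound
      show (QuotientGroup.rightRel A) (a * h) h
      rw [QuotientGroup.rightRel_apply]
      have : h * (a * h)⁻¹ = a⁻¹ := by group
      rw [this]
      exact A.inv_mem haA
    show Quotient.out _ = Quotient.out _
    rw [h4]
  let K : G → X := fun h => κ ⟨h * (r h)⁻¹, hr1 h⟩
  have hKa : ∀ h, K (α * h) = fa (K h) := by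
    intro h
    show κ _ = fa (κ _)
    rw [← ha]
    congr 1
    apply Subtype.ext
    show α * h * (r (α * h))⁻¹ = α * (h * (r h)⁻¹)
    rw [hr2 α hα]; group
  have hKb : ∀ h, K (β * h) = fb (K h) := by
    intro h
    show κ _ = fb (κ _)
    rw [← hb]
    congr 1
    apply Subtype.ext
    show β * h * (r (β * h))⁻¹ = β * (h * (r h)⁻¹)
    rw [hr2 β hβ]; group
  have μmono : ∀ S T : Set G, S ⊆ T → μ S ≤ μ T := by
    intro S T hST
    have h4 : T = S ∪ (T \ S) := (Set.union_sdiff_cancel hST).symm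
    have h5 := μadd S (T \ S) disjoint_sdiff_right
    rw [← h4] at h5
    have h6 := μ0 (T \ S)
    linarith
  have key : ∀ (γ : G) (f : X → X) (P Q : Set X), (∀ h, K (γ * h) = f (K h)) →
      (∀ x, x ∉ Q → f x ∈ P) → 1 ≤ μ (K ⁻¹' P) + μ (K ⁻¹' Q) := by
    intro γ f P Q hK hf
    have h4 : (K ⁻¹' Q) ∪ (K ⁻¹' Q)ᶜ = Set.univ := Set.union_compl_self _
    have h5 := μadd (K ⁻¹' Q) (K ⁻¹' Q)ᶜ disjoint_compl_right
    rw [h4, μ1] at h5
    have h6 : (fun x => γ * x) '' (K ⁻¹' Q)ᶜ ⊆ K ⁻¹' P := by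
      rintro _ ⟨h, hh, rfl⟩
      show K (γ * h) ∈ P
      rw [hK]
      exact hf _ hh
    have h7 := μmono _ _ h6
    rw [μinv] at h7
    linarith
  have k1 := key α fa Xa Ya hKa pa
  have k2 := key β fb Xb Yb hKb pb
  have d1 := μadd (K ⁻¹' Xa) (K ⁻¹' Ya) (h1.preimage K)
  have d2 := μadd (K ⁻¹' (Xa ∪ Ya)) (K ⁻¹' Xb) (h2.preimage K)
  have d3 := μadd (K ⁻¹' (Xa ∪ Ya ∪ Xb)) (K ⁻¹' Yb) (h3.preimage K)
  rw [← Set.preimage_union] at d1 d2 d3
  have d4 := μmono (K ⁻¹' (Xa ∪ Ya ∪ Xb ∪ Yb)) Set.univ (Set.subset_univ _)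
  rw [μ1] at d4
  linarith

/-- the order automorphisms of the line preserving `LL` -/
def LA : Subgroup (ℝ ≃o ℝ) where
  carrier := {F | ∀ x, F x ∈ LL ↔ x ∈ LL}
  one_mem' := fun x => Iff.rfl
  mul_mem' := by
    intro F G hF hG x
    exact (hF (G x)).trans (hG x)
  inv_mem' := by
    intro F hF x
    have := hF (F⁻¹ x)
    rw [show F (F⁻¹ x) = x from F.apply_symm_apply x] at this
    exact this.symm

/-- the double compression, as a homomorphism into the automorphisms of `CT` -/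
noncomputable def cc : LA →* Gp where
  toFun F := ⟨cmp (cmp F), cmpcmp_mem_CT F.2⟩
  map_one' := by
    apply Subtype.ext
    show cmp (cmp 1) = 1
    rw [map_one, map_one]
  map_mul' F G := by
    apply Subtype.ext
    show cmp (cmp (F * G)) = cmp (cmp F) * cmp (cmp G)
    rw [map_mul, map_mul]

/-- the compressed translation -/
noncomputable def tt : Gp := ⟨cmp (tr 4), cmptr_mem_CT⟩

noncomputable def aL : LA := ⟨aa, aa_mem_LL⟩
noncomputable def bL : LA := ⟨bb, bb_mem_LL⟩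

/-- the three mapping classes -/
noncomputable def α : Map SS := mc (cc aL)
noncomputable def β : Map SS := mc (cc bL)
noncomputable def τ : Map SS := mc tt

/-- the group generated by them -/
noncomputable def HG : Subgroup (Map SS) := Subgroup.closure {α, β, τ}

theorem α_mem : α ∈ HG := Subgroup.subset_closure (by simp)
theorem β_mem : β ∈ HG := Subgroup.subset_closure (by simp)
theorem τ_mem : τ ∈ HG := Subgroup.subset_closure (by simp)

/-- the subgroup generated by `α` and `β` -/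
noncomputable def AG : Subgroup HG := Subgroup.closure {⟨α, α_mem⟩, ⟨β, β_mem⟩}

theorem AG_range (g : HG) (hg : g ∈ AG) : ∃ F : LA, mc (cc F) = (g : Map SS) := by
  have h1 : AG ≤ ((mc.comp cc).range).comap HG.subtype := by
    rw [AG, Subgroup.closure_le]
    rintro x (rfl | rfl)
    · exact ⟨aL, rfl⟩
    · exact ⟨bL, rfl⟩
  obtain ⟨F, hF⟩ := h1 hg
  exact ⟨F, hF⟩

theorem eq_of_cc {F G : LA} (h : mc (cc F) = mc (cc G)) {y : ℝ} (hy : y ∈ LL) :
    (F : ℝ ≃o ℝ) y = (G : ℝ ≃o ℝ) y := by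
  have h1 := eq_of_mc h (sgsg_mem_CT hy)
  change cmp (cmp F) _ = cmp (cmp G) _ at h1
  rw [cmp_sg, cmp_sg, cmp_sg, cmp_sg] at h1
  rw [Subtype.coe_inj, EquivLike.apply_eq_iff_eq, Subtype.coe_inj, EquivLike.apply_eq_iff_eq] at h1
  exact h1

theorem HG_not_amenable : ¬ IsAmenable HG := by
  have hα : (⟨α, α_mem⟩ : HG) ∈ AG := Subgroup.subset_closure (by simp)
  have hβ : (⟨β, β_mem⟩ : HG) ∈ AG := Subgroup.subset_closure (by simp)
  choose pick hpick using AG_range
  let κ : AG → ℝ := fun g => ((pick g.1 g.2 : LA) : ℝ ≃o ℝ) 0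
  let cell : ℤ → Set ℝ := fun i => {x | ∃ n : ℤ, x - 8 * n ∈ Ico (2 * i : ℝ) (2 * i + 2)}
  have hcell : ∀ i j : ℤ, 0 ≤ i → i < 4 → 0 ≤ j → j < 4 → i ≠ j → Disjoint (cell i) (cell j) := by
    intro i j hi hi' hj hj' hij
    rw [Set.disjoint_left]
    intro x h1 h2
    exact hij (cells_disjoint hi hi' hj hj' h1 h2)
  refine not_amenable AG hα hβ κ aa bb ?_ ?_ (cell 0) (cell 2) (cell 1) (cell 3) ?_ ?_ ?_ ?_ ?_
  · intro g
    have h1 : mc (cc (pick _ ((⟨⟨α, α_mem⟩, hα⟩ : AG) * g).2)) = mc (cc (aL * pick g.1 g.2)) := by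
      rw [hpick, map_mul, map_mul, hpick]; rfl
    exact eq_of_cc h1 zero_mem_LL
  · intro g
    have h1 : mc (cc (pick _ ((⟨⟨β, β_mem⟩, hβ⟩ : AG) * g).2)) = mc (cc (bL * pick g.1 g.2)) := by
      rw [hpick, map_mul, map_mul, hpick]; rfl
    exact eq_of_cc h1 zero_mem_LL
  · exact hcell 0 2 (by norm_num) (by norm_num) (by norm_num) (by norm_num) (by norm_num)
  · rw [Set.disjoint_union_left]
    exact ⟨hcell 0 1 (by norm_num) (by norm_num) (by norm_num) (by norm_num) (by norm_num),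
      hcell 2 1 (by norm_num) (by norm_num) (by norm_num) (by norm_num) (by norm_num)⟩
  · rw [Set.disjoint_union_left, Set.disjoint_union_left]
    exact ⟨⟨hcell 0 3 (by norm_num) (by norm_num) (by norm_num) (by norm_num) (by norm_num),
      hcell 2 3 (by norm_num) (by norm_num) (by norm_num) (by norm_num) (by norm_num)⟩,
      hcell 1 3 (by norm_num) (by norm_num) (by norm_num) (by norm_num) (by norm_num)⟩
  · intro x hx
    have := pingpong_a (x := x) (by
      rintro ⟨n, hn⟩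
      apply hx
      exact ⟨n, by norm_num; exact ⟨hn.1, hn.2⟩⟩)
    obtain ⟨n, hn⟩ := this
    exact ⟨n, by norm_num; exact ⟨by linarith [hn.1], by linarith [hn.2]⟩⟩
  · intro x hx
    have := pingpong_b (x := x) (by
      rintro ⟨n, hn⟩
      apply hx
      exact ⟨n, by norm_num; exact ⟨hn.1, hn.2⟩⟩)
    obtain ⟨n, hn⟩ := this
    exact ⟨n, by norm_num; exact ⟨by linarith [hn.1], by linarith [hn.2]⟩⟩

/-! ### Commutation -/

theorem tr_pow_apply (n : ℕ) (x : ℝ) : ((tr 4) ^ n) x = x + 4 * n := by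
  induction n with
  | zero => simp
  | succ n ih =>
    rw [pow_succ']
    show tr 4 ((tr 4 ^ n) x) = _
    rw [ih, tr_apply]; push_cast; ring

theorem tr_pow_inv_apply (n : ℕ) (x : ℝ) : (((tr 4) ^ n)⁻¹) x = x - 4 * n := by
  change ((tr 4) ^ n).symm x = _
  rw [OrderIso.symm_apply_eq, tr_pow_apply]; ring

theorem commute_line (F G : ℝ ≃o ℝ) {n : ℕ} (hn : 0 < n) :
    Commute (cmp F) ((tr 4) ^ n * cmp G * ((tr 4) ^ n)⁻¹) := by
  have hn' : (1 : ℝ) ≤ n := by exact_mod_cast hn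
  have hG : ∀ x, ((tr 4) ^ n * cmp G * ((tr 4) ^ n)⁻¹) x = cmp G (x - 4 * n) + 4 * n := by
    intro x
    show (tr 4 ^ n) (cmp G ((tr 4 ^ n)⁻¹ x)) = _
    rw [tr_pow_inv_apply, tr_pow_apply]
  apply RelIso.ext
  intro x
  show cmp F (((tr 4) ^ n * cmp G * ((tr 4) ^ n)⁻¹) x) =
    ((tr 4) ^ n * cmp G * ((tr 4) ^ n)⁻¹) (cmp F x)
  rw [hG, hG]
  by_cases h1 : x ∈ Ioo (-1 : ℝ) 1
  · have h2 := cmp_mem_Ioo (F := F) h1
    have h3 : x - 4 * n ∉ Ioo (-1 : ℝ) 1 := by
      rintro ⟨h4, h5⟩; linarith [h1.2]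
    have h4 : cmp F x - 4 * n ∉ Ioo (-1 : ℝ) 1 := by
      rintro ⟨h4, h5⟩; linarith [h2.2]
    rw [cmp_of_notMem G h3, cmp_of_notMem G h4]
    ring_nf
  · rw [cmp_of_notMem F h1]
    by_cases h2 : x - 4 * n ∈ Ioo (-1 : ℝ) 1
    · have h3 := cmp_mem_Ioo (F := G) h2
      have h4 : cmp G (x - 4 * n) + 4 * n ∉ Ioo (-1 : ℝ) 1 := by
        rintro ⟨h4, h5⟩; linarith [h3.1]
      rw [cmp_of_notMem F h4]
    · rw [cmp_of_notMem G h2]
      have h3 : x - 4 * n + 4 * n ∉ Ioo (-1 : ℝ) 1 := by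
        rw [sub_add_cancel]; exact h1
      rw [cmp_of_notMem F h3]

theorem commute_Gp (F G : LA) {n : ℕ} (hn : 0 < n) :
    Commute (cc F) (tt ^ n * cc G * (tt ^ n)⁻¹) := by
  have h1 := (commute_line F G hn).map cmp
  rw [map_mul, map_mul, map_inv, map_pow] at h1
  apply Subtype.ext
  exact h1.eq

theorem commute_map (F G : LA) {n : ℕ} (hn : 0 < n) :
    Commute (mc (cc F)) (τ ^ n * mc (cc G) * (τ ^ n)⁻¹) := by
  have h1 := (commute_Gp F G hn).map mc
  rw [map_mul, map_mul, map_inv, map_pow] at h1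
  exact h1

theorem HG_quasi {φ : HG → ℝ} (hq : IsQuasimorphism φ) (hφ : IsHomogeneous φ) (g h : HG) :
    φ (g * h) = φ g + φ h := by
  refine quasi_hom hq hφ AG ⟨τ, τ_mem⟩ ?_ ?_ g h
  · rw [eq_top_iff]
    have h1 : Subgroup.closure (((↑) : HG → Map SS) ⁻¹' ({α, β, τ} : Set (Map SS))) = ⊤ :=
      Subgroup.closure_closure_coe_preimage
    rw [← h1]
    apply Subgroup.closure_mono
    rintro x hx
    rcases hx with hx | hx | hx
    · left
      have : x = ⟨α, α_mem⟩ := Subtype.ext hx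
      rw [this]
      exact Subgroup.subset_closure (by simp)
    · left
      have : x = ⟨β, β_mem⟩ := Subtype.ext hx
      rw [this]
      exact Subgroup.subset_closure (by simp)
    · right
      exact Subtype.ext hx
  · intro n hn a ha b hb
    obtain ⟨F, hF⟩ := AG_range a ha
    obtain ⟨G, hG⟩ := AG_range b hb
    apply Subtype.ext
    have h1 := (commute_map F G hn).eq
    rw [hF, hG] at h1
    exact h1

theorem HG_fg : HG.FG := by
  rw [Subgroup.fg_iff]
  exact ⟨{α, β, τ}, rfl, by simp⟩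

end Pool.Agent.H743.CM
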