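import Mathlib

/-!
Order automorphisms of the line: compression of the line into the interval `(-1, 1)`, the
translation by `4`, and a pair of ping-pong homeomorphisms commuting with the translation by `8`.
-/

set_option autoImplicit false

open Set

namespace Pool.Agent.H743.CM

/-- the order isomorphism of the line onto `(-1, 1)` -/
noncomputable abbrev sg : ℝ ≃o Ioo (-1 : ℝ) 1 := orderIsoIooNegOneOne ℝ

theorem sg_mem (x : ℝ) : ((sg x : Ioo (-1 : ℝ) 1) : ℝ) ∈ Ioo (-1 : ℝ) 1 := (sg x).2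

theorem sg_lt {x y : ℝ} : ((sg x : Ioo (-1 : ℝ) 1) : ℝ) < (sg y : Ioo (-1 : ℝ) 1) ↔ x < y := by
  rw [Subtype.coe_lt_coe, OrderIso.lt_iff_lt]

/-- the compression of a map of the line into `(-1, 1)` -/
noncomputable def cmpFun (F : ℝ ≃o ℝ) (x : ℝ) : ℝ :=
  open Classical in
  if h : x ∈ Ioo (-1 : ℝ) 1 then ((sg (F (sg.symm ⟨x, h⟩)) : Ioo (-1 : ℝ) 1) : ℝ) else x

theorem cmpFun_of_mem (F : ℝ ≃o ℝ) {x : ℝ} (h : x ∈ Ioo (-1 : ℝ) 1) :
    cmpFun F x = ((sg (F (sg.symm ⟨x, h⟩)) : Ioo (-1 : ℝ) 1) : ℝ) := by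
  unfold cmpFun; rw [dif_pos h]

theorem cmpFun_of_notMem (F : ℝ ≃o ℝ) {x : ℝ} (h : x ∉ Ioo (-1 : ℝ) 1) : cmpFun F x = x := by
  unfold cmpFun; rw [dif_neg h]

theorem cmpFun_sg (F : ℝ ≃o ℝ) (y : ℝ) :
    cmpFun F ((sg y : Ioo (-1 : ℝ) 1) : ℝ) = ((sg (F y) : Ioo (-1 : ℝ) 1) : ℝ) := by
  rw [cmpFun_of_mem F (sg_mem y)]
  congr 3
  simp

theorem exists_sg {x : ℝ} (h : x ∈ Ioo (-1 : ℝ) 1) : ∃ y : ℝ, ((sg y : Ioo (-1 : ℝ) 1) : ℝ) = x :=
  ⟨sg.symm ⟨x, h⟩, by simp⟩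

theorem cmpFun_mul (F G : ℝ ≃o ℝ) (x : ℝ) : cmpFun (F * G) x = cmpFun F (cmpFun G x) := by
  by_cases h : x ∈ Ioo (-1 : ℝ) 1
  · obtain ⟨y, rfl⟩ := exists_sg h
    rw [cmpFun_sg, cmpFun_sg, cmpFun_sg]; rfl
  · rw [cmpFun_of_notMem _ h, cmpFun_of_notMem _ h, cmpFun_of_notMem _ h]

theorem cmpFun_one (x : ℝ) : cmpFun 1 x = x := by
  by_cases h : x ∈ Ioo (-1 : ℝ) 1
  · obtain ⟨y, rfl⟩ := exists_sg h
    rw [cmpFun_sg]; rfl
  · rw [cmpFun_of_notMem _ h]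

theorem cmpFun_strictMono (F : ℝ ≃o ℝ) : StrictMono (cmpFun F) := by
  intro x y hxy
  by_cases hx : x ∈ Ioo (-1 : ℝ) 1
  · obtain ⟨u, rfl⟩ := exists_sg hx
    by_cases hy : y ∈ Ioo (-1 : ℝ) 1
    · obtain ⟨v, rfl⟩ := exists_sg hy
      rw [cmpFun_sg, cmpFun_sg, sg_lt, OrderIso.lt_iff_lt]
      exact sg_lt.1 hxy
    · rw [cmpFun_of_notMem _ hy, cmpFun_sg]
      have h1 := (sg_mem u).1
      have h2 : 1 ≤ y := by
        by_contra hc
        exact hy ⟨by linarith, by linarith⟩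
      exact lt_of_lt_of_le (sg_mem _).2 h2
  · by_cases hy : y ∈ Ioo (-1 : ℝ) 1
    · obtain ⟨v, rfl⟩ := exists_sg hy
      rw [cmpFun_of_notMem _ hx, cmpFun_sg]
      have h1 := (sg_mem v).2
      have h2 : x ≤ -1 := by
        by_contra hc
        exact hx ⟨by linarith, by linarith⟩
      exact lt_of_le_of_lt h2 (sg_mem _).1
    · rw [cmpFun_of_notMem _ hx, cmpFun_of_notMem _ hy]; exact hxy

/-- The compression homomorphism: `cmp F` acts on `(-1, 1)` as `F` acts on the line, and trivially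
outside `(-1, 1)`. -/
noncomputable def cmp : (ℝ ≃o ℝ) →* (ℝ ≃o ℝ) where
  toFun F :=
    { toFun := cmpFun F
      invFun := cmpFun F⁻¹
      left_inv := fun x => by rw [← cmpFun_mul, inv_mul_cancel, cmpFun_one]
      right_inv := fun x => by rw [← cmpFun_mul, mul_inv_cancel, cmpFun_one]
      map_rel_iff' := fun {x y} => (cmpFun_strictMono F).le_iff_le }
  map_one' := by
    apply RelIso.ext; intro x; exact cmpFun_one x
  map_mul' F G := by
    apply RelIso.ext; intro x; exact cmpFun_mul F G x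

theorem cmp_apply (F : ℝ ≃o ℝ) (x : ℝ) : cmp F x = cmpFun F x := rfl

theorem cmp_sg (F : ℝ ≃o ℝ) (y : ℝ) :
    cmp F ((sg y : Ioo (-1 : ℝ) 1) : ℝ) = ((sg (F y) : Ioo (-1 : ℝ) 1) : ℝ) := cmpFun_sg F y

theorem cmp_of_notMem (F : ℝ ≃o ℝ) {x : ℝ} (h : x ∉ Ioo (-1 : ℝ) 1) : cmp F x = x :=
  cmpFun_of_notMem F h

/-- the translation by `c` -/
noncomputable def tr (c : ℝ) : ℝ ≃o ℝ := OrderIso.addRight c

theorem tr_apply (c x : ℝ) : tr c x = x + c := rfl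

theorem tr_inv_apply (c x : ℝ) : (tr c)⁻¹ x = x - c := by
  change (tr c).symm x = x - c
  rw [OrderIso.symm_apply_eq, tr_apply]; ring

/-- the piecewise linear map used on `[-2, 6)` -/
noncomputable def pp (u : ℝ) : ℝ :=
  if u ≤ 3 then (u + 2) / 5 else if u ≤ 4 then u - 2 else if u ≤ 5 then 5 * u - 18 else u + 2

/-- its inverse, used on `[0, 8)` -/
noncomputable def qq (v : ℝ) : ℝ :=
  if v ≤ 1 then 5 * v - 2 else if v ≤ 2 then v + 2 else if v ≤ 7 then (v + 18) / 5 else v - 2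

theorem pp_strictMono : StrictMono pp := by
  intro x y h
  unfold pp
  split_ifs <;> linarith

theorem pp_mem {u : ℝ} (h : u ∈ Ico (-2 : ℝ) 6) : pp u ∈ Ico (0 : ℝ) 8 := by
  obtain ⟨h1, h2⟩ := h
  unfold pp
  constructor <;> split_ifs <;> linarith

theorem qq_mem {v : ℝ} (h : v ∈ Ico (0 : ℝ) 8) : qq v ∈ Ico (-2 : ℝ) 6 := by
  obtain ⟨h1, h2⟩ := h
  unfold qq
  constructor <;> split_ifs <;> linarith

theorem qq_pp (u : ℝ) : qq (pp u) = u := by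
  unfold qq pp
  split_ifs <;> linarith

theorem pp_qq (v : ℝ) : pp (qq v) = v := by
  unfold qq pp
  split_ifs <;> linarith

/-- the cell index of `x` for the cells `[8n - 2, 8n + 6)` -/
noncomputable def ci (x : ℝ) : ℤ := ⌊(x + 2) / 8⌋

theorem ci_mem (x : ℝ) : x - 8 * ci x ∈ Ico (-2 : ℝ) 6 := by
  have h1 := Int.floor_le ((x + 2) / 8)
  have h2 := Int.lt_floor_add_one ((x + 2) / 8)
  unfold ci
  constructor <;> linarith

theorem ci_eq {x : ℝ} {n : ℤ} (h : x - 8 * n ∈ Ico (-2 : ℝ) 6) : ci x = n := by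
  unfold ci
  rw [Int.floor_eq_iff]
  obtain ⟨h1, h2⟩ := h
  constructor <;> linarith

/-- the homeomorphism `a` as a function -/
noncomputable def aFun (x : ℝ) : ℝ := 8 * ci x + pp (x - 8 * ci x)

/-- its inverse as a function -/
noncomputable def aInv (y : ℝ) : ℝ := 8 * (⌊y / 8⌋ : ℤ) + qq (y - 8 * (⌊y / 8⌋ : ℤ))

theorem floor8_mem (y : ℝ) : y - 8 * (⌊y / 8⌋ : ℤ) ∈ Ico (0 : ℝ) 8 := by
  have h1 := Int.floor_le (y / 8)
  have h2 := Int.lt_floor_add_one (y / 8)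
  constructor <;> linarith

theorem floor8_eq {y : ℝ} {n : ℤ} (h : y - 8 * n ∈ Ico (0 : ℝ) 8) : ⌊y / 8⌋ = n := by
  rw [Int.floor_eq_iff]
  obtain ⟨h1, h2⟩ := h
  constructor <;> linarith

theorem aFun_eq {x : ℝ} {n : ℤ} (h : x - 8 * n ∈ Ico (-2 : ℝ) 6) :
    aFun x = 8 * n + pp (x - 8 * n) := by
  unfold aFun; rw [ci_eq h]

theorem aInv_aFun (x : ℝ) : aInv (aFun x) = x := by
  have h1 := pp_mem (ci_mem x)
  have h2 : ⌊aFun x / 8⌋ = ci x := by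
    apply floor8_eq
    unfold aFun
    convert h1 using 1
    ring
  unfold aInv
  rw [h2]
  unfold aFun
  rw [show (8 * (ci x : ℝ) + pp (x - 8 * ci x) - 8 * ci x) = pp (x - 8 * ci x) by ring, qq_pp]
  ring

theorem aFun_aInv (y : ℝ) : aFun (aInv y) = y := by
  have h1 := qq_mem (floor8_mem y)
  have h2 : ci (aInv y) = ⌊y / 8⌋ := by
    apply ci_eq
    unfold aInv
    convert h1 using 1
    ring
  unfold aFun
  rw [h2]
  unfold aInv
  rw [show (8 * ((⌊y / 8⌋ : ℤ) : ℝ) + qq (y - 8 * (⌊y / 8⌋ : ℤ)) - 8 * (⌊y / 8⌋ : ℤ)) =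
    qq (y - 8 * (⌊y / 8⌋ : ℤ)) by ring, pp_qq]
  ring

theorem aFun_strictMono : StrictMono aFun := by
  intro x y h
  have hle : ci x ≤ ci y := by
    unfold ci
    apply Int.floor_le_floor
    linarith
  rcases eq_or_lt_of_le hle with he | hl
  · unfold aFun
    rw [← he]
    have := pp_strictMono (show x - 8 * ci x < y - 8 * ci x by linarith)
    linarith
  · have h1 := (pp_mem (ci_mem x)).2
    have h2 := (pp_mem (ci_mem y)).1
    have h3 : ((ci x : ℤ) : ℝ) + 1 ≤ ci y := by exact_mod_cast hl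
    unfold aFun
    linarith

/-- The order automorphism `a` of the line. It commutes with the translation by `8` and maps
`[-2, 3]` affinely onto `[0, 1]`, `[3, 4]` onto `[1, 2]`, `[4, 5]` onto `[2, 7]`, `[5, 6]` onto
`[7, 8]`. -/
noncomputable def aa : ℝ ≃o ℝ where
  toFun := aFun
  invFun := aInv
  left_inv := aInv_aFun
  right_inv := aFun_aInv
  map_rel_iff' := fun {x y} => aFun_strictMono.le_iff_le

theorem aa_apply (x : ℝ) : aa x = aFun x := rfl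

/-- The conjugate of `a` by the translation by `2`. -/
noncomputable def bb : ℝ ≃o ℝ := tr 2 * aa * (tr 2)⁻¹

theorem bb_apply (x : ℝ) : bb x = aFun (x - 2) + 2 := by
  change tr 2 (aa ((tr 2)⁻¹ x)) = _
  rw [tr_inv_apply, tr_apply, aa_apply]

/-- ping-pong for `a`: outside `⋃ [8n + 4, 8n + 6)` everything is mapped into `⋃ [8n, 8n + 2)` -/
theorem pingpong_a {x : ℝ} (h : ¬ ∃ n : ℤ, x - 8 * n ∈ Ico (4 : ℝ) 6) :
    ∃ n : ℤ, aa x - 8 * n ∈ Ico (0 : ℝ) 2 := by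
  refine ⟨ci x, ?_⟩
  rw [aa_apply]
  unfold aFun
  have h1 := ci_mem x
  have h2 : x - 8 * ci x < 4 := by
    by_contra hc
    exact h ⟨ci x, by linarith, h1.2⟩
  have h3 : (8 * (ci x : ℝ) + pp (x - 8 * ci x) - 8 * ci x) = pp (x - 8 * ci x) := by ring
  rw [h3]
  have h4 := h1.1
  unfold pp
  constructor <;> split_ifs <;> linarith

/-- ping-pong for `b` -/
theorem pingpong_b {x : ℝ} (h : ¬ ∃ n : ℤ, x - 8 * n ∈ Ico (6 : ℝ) 8) :
    ∃ n : ℤ, bb x - 8 * n ∈ Ico (2 : ℝ) 4 := by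
  have h1 : ¬ ∃ n : ℤ, (x - 2) - 8 * n ∈ Ico (4 : ℝ) 6 := by
    rintro ⟨n, h1, h2⟩
    exact h ⟨n, by linarith, by linarith⟩
  obtain ⟨n, h2, h3⟩ := pingpong_a h1
  refine ⟨n, ?_⟩
  rw [bb_apply]
  rw [aa_apply] at h2 h3
  constructor <;> linarith

/-- The four ping-pong sets are disjoint. -/
theorem cells_disjoint {x : ℝ} {i j : ℤ} (hi : 0 ≤ i) (hi' : i < 4) (hj : 0 ≤ j) (hj' : j < 4)
    (h1 : ∃ n : ℤ, x - 8 * n ∈ Ico (2 * i : ℝ) (2 * i + 2))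
    (h2 : ∃ n : ℤ, x - 8 * n ∈ Ico (2 * j : ℝ) (2 * j + 2)) : i = j := by
  obtain ⟨n, h1, h1'⟩ := h1
  obtain ⟨m, h2, h2'⟩ := h2
  have e1 : ⌊x / 2⌋ = 4 * n + i := by
    rw [Int.floor_eq_iff]; push_cast; constructor <;> linarith
  have e2 : ⌊x / 2⌋ = 4 * m + j := by
    rw [Int.floor_eq_iff]; push_cast; constructor <;> linarith
  omega

end Pool.Agent.H743.CM
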