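import Pool.Agent.H743.CM.Sets
import Pool.Agent.H659R3.BigMCG.Defs

/-!
The plane minus a Cantor set `CC` on the real axis as an oriented surface, the mapping classes of
the homeomorphisms `x + i y ↦ F x + i y`, and the action of such mapping classes on the Cantor set.
-/

set_option autoImplicit false

open Set Topology unitInterval

namespace Pool.Agent.H743.CM

open Pool.Agent.H659R3.BigMCG

/-- the Cantor set in the plane -/
def CC : Set ℂ := {z | z.im = 0 ∧ z.re ∈ CT}

theorem CC_closed : IsClosed CC :=
  (isClosed_eq Complex.continuous_im continuous_const).inter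
    (CT_closed.preimage Complex.continuous_re)

theorem CC_compact : IsCompact CC := by
  have h : CC = Complex.ofReal '' CT := by
    ext z
    constructor
    · rintro ⟨h1, h2⟩
      exact ⟨z.re, h2, Complex.ext rfl (by simp [h1])⟩
    · rintro ⟨x, hx, rfl⟩
      exact ⟨Complex.ofReal_im x, by simpa using hx⟩
  rw [h]
  exact CT_good.1.image Complex.continuous_ofReal

/-- the plane minus the Cantor set -/
abbrev SS : Type := {z : ℂ // z ∉ CC}

theorem two_notMem : (2 : ℂ) ∉ CC := by
  rintro ⟨-, h⟩
  have := (CT_sub h).2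
  norm_num at this

instance : Nonempty SS := ⟨⟨2, two_notMem⟩⟩

theorem notMem_of_im {z : ℂ} (h : z.im ≠ 0) : z ∉ CC := fun hc => h hc.1

/-- the complement of the Cantor set is path connected -/
theorem isPathConnected_compl : IsPathConnected (CCᶜ : Set ℂ) := by
  -- vertical segments upwards and downwards, joined through the point `2`
  have hup : ∀ z : ℂ, z ∈ (CCᶜ : Set ℂ) → 0 ≤ z.im → JoinedIn (CCᶜ : Set ℂ) z (z + Complex.I) := by
    intro z hz him
    apply JoinedIn.of_segment_subset
    rintro w hw
    rw [segment_eq_image'] at hw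
    obtain ⟨θ, ⟨h0, h1⟩, rfl⟩ := hw
    rcases eq_or_lt_of_le h0 with h | h
    · rw [← h]; simpa using hz
    · apply notMem_of_im
      simp only [Complex.add_im, Complex.real_smul, Complex.mul_im, Complex.sub_im,
        Complex.ofReal_re, Complex.ofReal_im, Complex.I_im]
      nlinarith
  have hdown : ∀ z : ℂ, z ∈ (CCᶜ : Set ℂ) → z.im ≤ 0 →
      JoinedIn (CCᶜ : Set ℂ) z (z - Complex.I) := by
    intro z hz him
    apply JoinedIn.of_segment_subset
    rintro w hw
    rw [segment_eq_image'] at hw
    obtain ⟨θ, ⟨h0, h1⟩, rfl⟩ := hw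
    rcases eq_or_lt_of_le h0 with h | h
    · rw [← h]; simpa using hz
    · apply notMem_of_im
      simp only [Complex.add_im, Complex.real_smul, Complex.mul_im, Complex.sub_im,
        Complex.ofReal_re, Complex.ofReal_im, Complex.I_im]
      nlinarith
  have hU : ∀ z w : ℂ, 0 < z.im → 0 < w.im → JoinedIn (CCᶜ : Set ℂ) z w := by
    intro z w hz hw
    apply JoinedIn.of_segment_subset
    rintro v hv
    rw [segment_eq_image] at hv
    obtain ⟨θ, ⟨h0, h1⟩, rfl⟩ := hv
    apply notMem_of_im
    simp only [Complex.add_im, Complex.real_smul, Complex.mul_im,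
      Complex.ofReal_re, Complex.ofReal_im]
    rcases eq_or_lt_of_le h0 with h | h
    · rw [← h]; simp; exact hz.ne'
    · have : 0 ≤ (1 - θ) * z.im := mul_nonneg (by linarith) hz.le
      have : 0 < θ * w.im := mul_pos h hw
      simp
      linarith
  have hL : ∀ z w : ℂ, z.im < 0 → w.im < 0 → JoinedIn (CCᶜ : Set ℂ) z w := by
    intro z w hz hw
    apply JoinedIn.of_segment_subset
    rintro v hv
    rw [segment_eq_image] at hv
    obtain ⟨θ, ⟨h0, h1⟩, rfl⟩ := hv
    apply notMem_of_im
    simp only [Complex.add_im, Complex.real_smul, Complex.mul_im,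
      Complex.ofReal_re, Complex.ofReal_im]
    rcases eq_or_lt_of_le h0 with h | h
    · rw [← h]; simp; exact hz.ne
    · have : (1 - θ) * z.im ≤ 0 := mul_nonpos_of_nonneg_of_nonpos (by linarith) hz.le
      have : θ * w.im < 0 := mul_neg_of_pos_of_neg h hw
      simp
      linarith
  refine ⟨2, two_notMem, ?_⟩
  intro z hz
  by_cases him : 0 ≤ z.im
  · have h1 := hup 2 two_notMem (by simp)
    have h2 := hup z hz him
    refine h1.trans ((hU _ _ ?_ ?_).trans h2.symm)
    · simp
    · simp; linarith
  · push Not at him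
    have h1 := hdown 2 two_notMem (by simp)
    have h2 := hdown z hz him.le
    refine h1.trans ((hL _ _ ?_ ?_).trans h2.symm)
    · simp
    · simp; linarith

instance : ConnectedSpace SS :=
  isConnected_iff_connectedSpace.1 isPathConnected_compl.isConnected

theorem val_emb : IsOpenEmbedding (Subtype.val : SS → ℂ) :=
  CC_closed.isOpen_compl.isOpenEmbedding_subtypeVal

/-- the inclusion of the surface in the plane, as a chart -/
noncomputable def inc : OpenPartialHomeomorph SS ℂ :=
  val_emb.toOpenPartialHomeomorph (Subtype.val : SS → ℂ)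

theorem inc_apply (x : SS) : inc x = x.1 := rfl
theorem inc_source : inc.source = Set.univ := rfl
theorem inc_target : inc.target = (CCᶜ : Set ℂ) := by
  unfold inc
  rw [IsOpenEmbedding.toOpenPartialHomeomorph_target]
  exact Subtype.range_coe

theorem inc_symm {w : ℂ} (hw : w ∈ inc.target) : (inc.symm w).1 = w := inc.right_inv hw

theorem orientPresAt_id (z : ℂ) : OrientPresAt (fun w => w) z := by
  simpa using orientPresAt_add_const 0 z

/-- The plane minus the Cantor set, oriented as an open subset of the plane: the only chart of the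
oriented atlas is the inclusion. -/
noncomputable instance : OrientedSurface SS where
  t2 := inferInstance
  secondCountable := inferInstance
  connected := inferInstance
  charts := {inc}
  cover := fun x => ⟨inc, rfl, by rw [inc_source]; trivial⟩
  oriented := by
    rintro _ rfl _ rfl x hx hx'
    refine (orientPresAt_id (inc x)).congr ?_
    have hn : inc.target ∈ 𝓝 (inc x) := inc.open_target.mem_nhds (inc.map_source hx)
    filter_upwards [hn] with w hw
    exact inc.right_inv hw

/-! ### Homeomorphisms coming from the line -/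

/-- the map `x + i y ↦ F x + i y` -/
noncomputable def pl (F : ℝ ≃o ℝ) (z : ℂ) : ℂ := ⟨F z.re, z.im⟩

theorem continuous_F (F : ℝ ≃o ℝ) : Continuous F := F.toHomeomorph.continuous

theorem continuous_pl (F : ℝ ≃o ℝ) : Continuous (pl F) := by
  have h : pl F = fun z => ((F z.re : ℝ) : ℂ) + (z.im : ℝ) * Complex.I := by
    funext z
    apply Complex.ext <;> simp [pl]
  rw [h]
  have := continuous_F F
  fun_prop

theorem pl_mul (F G : ℝ ≃o ℝ) (z : ℂ) : pl (F * G) z = pl F (pl G z) := rfl

theorem pl_one (z : ℂ) : pl 1 z = z := rfl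

/-- the order automorphisms of the line preserving `CT` -/
def Gp : Subgroup (ℝ ≃o ℝ) where
  carrier := {F | ∀ x, F x ∈ CT ↔ x ∈ CT}
  one_mem' := fun x => Iff.rfl
  mul_mem' := by
    intro F G hF hG x
    exact (hF (G x)).trans (hG x)
  inv_mem' := by
    intro F hF x
    have := hF (F⁻¹ x)
    rw [show F (F⁻¹ x) = x from F.apply_symm_apply x] at this
    exact this.symm

theorem pl_mem {F : ℝ ≃o ℝ} (hF : F ∈ Gp) (z : ℂ) : pl F z ∈ CC ↔ z ∈ CC := by
  constructor
  · rintro ⟨h1, h2⟩; exact ⟨h1, (hF _).1 h2⟩
  · rintro ⟨h1, h2⟩; exact ⟨h1, (hF _).2 h2⟩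

/-- the homeomorphism of the surface given by an order automorphism of the line -/
noncomputable def hm (F : Gp) : SS ≃ₜ SS where
  toFun x := ⟨pl F x.1, fun h => x.2 ((pl_mem F.2 _).1 h)⟩
  invFun x := ⟨pl (F : ℝ ≃o ℝ)⁻¹ x.1, fun h => x.2 ((pl_mem (Gp.inv_mem F.2) _).1 h)⟩
  left_inv x := by
    apply Subtype.ext
    change pl (F : ℝ ≃o ℝ)⁻¹ (pl F x.1) = x.1
    rw [← pl_mul, inv_mul_cancel, pl_one]
  right_inv x := by
    apply Subtype.ext
    change pl F (pl (F : ℝ ≃o ℝ)⁻¹ x.1) = x.1
    rw [← pl_mul, mul_inv_cancel, pl_one]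
  continuous_toFun := ((continuous_pl F).comp continuous_subtype_val).subtype_mk _
  continuous_invFun := ((continuous_pl _).comp continuous_subtype_val).subtype_mk _

theorem hm_apply (F : Gp) (x : SS) : (hm F x).1 = pl F x.1 := rfl

theorem hm_mul (F G : Gp) : hm (F * G) = hm F * hm G := by
  apply Homeomorph.ext
  intro x
  rfl

theorem hm_one : hm 1 = 1 := by
  apply Homeomorph.ext
  intro x
  rfl

/-- `pl F` preserves the orientation of the plane -/
theorem orientPresAt_pl (F : ℝ ≃o ℝ) (z : ℂ) : OrientPresAt (pl F) z := by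
  refine ⟨1, one_pos, fun r hr _ => ?_⟩
  have hc : Continuous fun t : ℝ => pl F (z + r * Complex.exp (2 * Real.pi * t * Complex.I)) -
      pl F z := by
    have := continuous_pl F
    fun_prop
  refine (hasWinding_circ hr).of_slit (continuous_circ r) hc ?_ ?_
  · intro t
    have := circ_add_one r t
    unfold circ at this
    rw [this]
  · intro t
    set w : ℂ := circ r t with hw
    have hw' : (r * Complex.exp (2 * Real.pi * t * Complex.I) : ℂ) = w := rfl
    rw [hw']
    have hn : ‖w‖ = r := norm_circ hr.le t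
    have hw0 : w ≠ 0 := by
      intro h; rw [h, norm_zero] at hn; linarith
    left
    have h1 : (pl F (z + w) - pl F z) / w =
        ((pl F (z + w) - pl F z) * (starRingEnd ℂ) w) / ((Complex.normSq w : ℝ) : ℂ) := by
      rw [Complex.normSq_eq_conj_mul_self]
      have : (starRingEnd ℂ) w ≠ 0 := by simpa using hw0
      field_simp
    rw [h1, Complex.div_ofReal_re]
    apply div_pos _ (Complex.normSq_pos.2 hw0)
    have h2 : ((pl F (z + w) - pl F z) * (starRingEnd ℂ) w).re =
        (F (z.re + w.re) - F z.re) * w.re + w.im * w.im := by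
      simp [pl, Complex.mul_re]
    rw [h2]
    rcases lt_trichotomy w.re 0 with h | h | h
    · have h3 : F (z.re + w.re) < F z.re := F.lt_iff_lt.2 (by linarith)
      have h4 : 0 < (F (z.re + w.re) - F z.re) * w.re :=
        mul_pos_of_neg_of_neg (by linarith) h
      nlinarith [mul_self_nonneg w.im]
    · have h5 : w.im ≠ 0 := by
        intro h6
        exact hw0 (Complex.ext h h6)
      rw [h, mul_zero, zero_add]
      exact mul_self_pos.2 h5
    · have h3 : F z.re < F (z.re + w.re) := F.lt_iff_lt.2 (by linarith)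
      have h4 : 0 < (F (z.re + w.re) - F z.re) * w.re := mul_pos (by linarith) h
      nlinarith [mul_self_nonneg w.im]

theorem hm_orient (F : Gp) : PreservesOrientation (hm F) := by
  rintro _ rfl _ rfl x hx hx'
  refine (orientPresAt_pl F (inc x)).congr ?_
  have hn : inc.target ∈ 𝓝 (inc x) := inc.open_target.mem_nhds (inc.map_source hx)
  filter_upwards [hn] with w hw
  show (hm F (inc.symm w)).1 = pl F w
  rw [hm_apply, inc_symm hw]

/-- the homomorphism to the orientation-preserving homeomorphisms -/
noncomputable def hmP : Gp →* HomeoPlus SS where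
  toFun F := ⟨hm F, hm_orient F, by
    have : (hm F)⁻¹ = hm F⁻¹ := by
      rw [inv_eq_iff_mul_eq_one, ← hm_mul, mul_inv_cancel, hm_one]
    rw [this]
    exact hm_orient F⁻¹⟩
  map_one' := Subtype.ext hm_one
  map_mul' F G := Subtype.ext (hm_mul F G)

/-- the homomorphism to the mapping class group -/
noncomputable def mc : Gp →* Map SS := toMap.comp hmP

/-! ### Detection: isotopic homeomorphisms agree on the Cantor set -/

/-- the loop which crosses the real axis at `c + p` and at `c - q` -/
noncomputable def lp (c p q : ℝ) (t : ℝ) : ℂ :=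
  ⟨c + p * max (Real.cos (2 * Real.pi * t)) 0 + q * min (Real.cos (2 * Real.pi * t)) 0,
    Real.sin (2 * Real.pi * t)⟩

theorem continuous_lp (c p q : ℝ) : Continuous (lp c p q) := by
  have h : lp c p q = fun t : ℝ => ((c + p * max (Real.cos (2 * Real.pi * t)) 0 +
      q * min (Real.cos (2 * Real.pi * t)) 0 : ℝ) : ℂ) +
      ((Real.sin (2 * Real.pi * t) : ℝ) : ℂ) * Complex.I := by
    funext t
    apply Complex.ext <;> simp [lp, -Complex.ofReal_sin, -Complex.ofReal_cos]
  rw [h]
  fun_prop

theorem cos_add_one (t : ℝ) : Real.cos (2 * Real.pi * (t + 1)) = Real.cos (2 * Real.pi * t) := by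
  rw [show 2 * Real.pi * (t + 1) = 2 * Real.pi * t + 2 * Real.pi by ring, Real.cos_add_two_pi]

theorem sin_add_one (t : ℝ) : Real.sin (2 * Real.pi * (t + 1)) = Real.sin (2 * Real.pi * t) := by
  rw [show 2 * Real.pi * (t + 1) = 2 * Real.pi * t + 2 * Real.pi by ring, Real.sin_add_two_pi]

theorem lp_add_one (c p q t : ℝ) : lp c p q (t + 1) = lp c p q t := by
  unfold lp
  rw [cos_add_one, sin_add_one]

theorem lp_notMem {c p q : ℝ} (hp : c + p ∉ CT) (hq : c - q ∉ CT) (t : ℝ) :
    lp c p q t ∉ CC := by
  rintro ⟨h1, h2⟩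
  have h3 : Real.sin (2 * Real.pi * t) = 0 := h1
  have h4 := Real.sin_sq_add_cos_sq (2 * Real.pi * t)
  rw [h3] at h4
  have h5 : (Real.cos (2 * Real.pi * t) - 1) * (Real.cos (2 * Real.pi * t) + 1) = 0 := by
    linarith
  have h6 : Real.cos (2 * Real.pi * t) = 1 ∨ Real.cos (2 * Real.pi * t) = -1 := by
    rcases mul_eq_zero.1 h5 with h | h
    · left; linarith
    · right; linarith
  rcases h6 with h | h
  all_goals
    change c + p * max (Real.cos (2 * Real.pi * t)) 0 + q * min (Real.cos (2 * Real.pi * t)) 0 ∈ CT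
      at h2
    rw [h] at h2
  · apply hp
    convert h2 using 1
    norm_num
  · apply hq
    convert h2 using 1
    norm_num
    ring

end Pool.Agent.H743.CM
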