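import Pool.Agent.H743.CM.Line
import Pool.Agent.H812R3.CantorChar

/-!
The sets preserved by the order automorphisms: the five-adic Cantor set `EE`, its `2`-periodic
union `LL`, the compressed set `C0`, its `4`-periodic union `KK` and the compressed set `CT`.
-/

set_option autoImplicit false

open Set Topology

namespace Pool.Agent.H743.CM

/-! ### The five-adic Cantor set -/

/-- the largest subset `A` of `[0, 1]` such that each `x ∈ A` has `5 x - 2 j ∈ A` for some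
`j ∈ {0, 1, 2}` -/
def EE : Set ℝ := ⋃₀ {A | A ⊆ Icc 0 1 ∧ ∀ x ∈ A, ∃ j : ℤ, 0 ≤ j ∧ j ≤ 2 ∧ 5 * x - 2 * j ∈ A}

theorem EE_sub {x : ℝ} (h : x ∈ EE) : 0 ≤ x ∧ x ≤ 1 := by
  obtain ⟨A, ⟨h1, -⟩, hx⟩ := h
  exact h1 hx

theorem EE_step {x : ℝ} (h : x ∈ EE) : ∃ j : ℤ, 0 ≤ j ∧ j ≤ 2 ∧ 5 * x - 2 * j ∈ EE := by
  obtain ⟨A, hA, hx⟩ := h
  obtain ⟨j, h1, h2, h3⟩ := hA.2 x hx
  exact ⟨j, h1, h2, A, hA, h3⟩

theorem EE_of {A : Set ℝ} (h1 : A ⊆ Icc 0 1)
    (h2 : ∀ x ∈ A, ∃ j : ℤ, 0 ≤ j ∧ j ≤ 2 ∧ 5 * x - 2 * j ∈ A) {x : ℝ} (hx : x ∈ A) : x ∈ EE :=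
  ⟨A, ⟨h1, h2⟩, hx⟩

theorem EE_back {x : ℝ} {j : ℤ} (h0 : 0 ≤ j) (h2 : j ≤ 2) (h : 5 * x - 2 * j ∈ EE) : x ∈ EE := by
  refine EE_of (A := EE ∪ {x}) ?_ ?_ (Or.inr rfl)
  · rintro y (hy | hy)
    · exact EE_sub hy
    · rw [mem_singleton_iff.1 hy]
      obtain ⟨h3, h4⟩ := EE_sub h
      have h5 : (0 : ℝ) ≤ j := by exact_mod_cast h0
      have h6 : (j : ℝ) ≤ 2 := by exact_mod_cast h2
      constructor <;> linarith
  · rintro y (hy | hy)
    · obtain ⟨i, h3, h4, h5⟩ := EE_step hy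
      exact ⟨i, h3, h4, Or.inl h5⟩
    · rw [mem_singleton_iff.1 hy]
      exact ⟨j, h0, h2, Or.inl h⟩

theorem zero_mem_EE : (0 : ℝ) ∈ EE := by
  refine EE_of (A := {0}) ?_ ?_ rfl
  · rintro x rfl; constructor <;> norm_num
  · rintro x rfl; exact ⟨0, le_refl _, by norm_num, by simp⟩

theorem one_mem_EE : (1 : ℝ) ∈ EE := by
  refine EE_of (A := {1}) ?_ ?_ rfl
  · rintro x rfl; constructor <;> norm_num
  · rintro x rfl; exact ⟨2, by norm_num, le_refl _, by rw [mem_singleton_iff]; norm_num⟩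

theorem isClosed_EE : IsClosed EE := by
  rw [← closure_subset_iff_isClosed]
  have hU : closure EE ⊆ Icc 0 1 := closure_minimal (fun x hx => EE_sub hx) isClosed_Icc
  intro x hx
  refine EE_of (A := closure EE) hU ?_ hx
  intro y hy
  have h1 : IsClosed ({y : ℝ | 5 * y - 2 * ((0 : ℤ) : ℝ) ∈ closure EE} ∪
      ({y : ℝ | 5 * y - 2 * ((1 : ℤ) : ℝ) ∈ closure EE} ∪
      {y : ℝ | 5 * y - 2 * ((2 : ℤ) : ℝ) ∈ closure EE})) := by
    have hc : ∀ j : ℤ, IsClosed {y : ℝ | 5 * y - 2 * (j : ℝ) ∈ closure EE} := fun j =>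
      isClosed_closure.preimage (by fun_prop)
    exact (hc 0).union ((hc 1).union (hc 2))
  have h2 : closure EE ⊆ ({y : ℝ | 5 * y - 2 * ((0 : ℤ) : ℝ) ∈ closure EE} ∪
      ({y : ℝ | 5 * y - 2 * ((1 : ℤ) : ℝ) ∈ closure EE} ∪
      {y : ℝ | 5 * y - 2 * ((2 : ℤ) : ℝ) ∈ closure EE})) := by
    refine closure_minimal ?_ h1
    intro z hz
    obtain ⟨j, h3, h4, h5⟩ := EE_step hz
    have h6 := subset_closure h5
    interval_cases j
    · exact Or.inl h6
    · exact Or.inr (Or.inl h6)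
    · exact Or.inr (Or.inr h6)
  rcases h2 hy with h | h | h
  · exact ⟨0, le_refl _, by norm_num, h⟩
  · exact ⟨1, by norm_num, by norm_num, h⟩
  · exact ⟨2, by norm_num, le_refl _, h⟩

theorem EE_perfect : ∀ x ∈ EE, ∀ ε > 0, ∃ y ∈ EE, y ≠ x ∧ |y - x| < ε := by
  have key : ∀ n : ℕ, ∀ x ∈ EE, ∃ y ∈ EE, y ≠ x ∧ |y - x| ≤ (1 / 5) ^ n := by
    intro n
    induction n with
    | zero =>
      intro x hx
      obtain ⟨h1, h2⟩ := EE_sub hx
      by_cases h0 : x = 0
      · refine ⟨1, one_mem_EE, ?_, ?_⟩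
        · rw [h0]; norm_num
        · rw [h0]; norm_num
      · refine ⟨0, zero_mem_EE, fun h => h0 h.symm, ?_⟩
        rw [abs_le]; constructor <;> simp <;> linarith
    | succ n ih =>
      intro x hx
      obtain ⟨j, h0, h2, hj⟩ := EE_step hx
      obtain ⟨y, hy, hne, hd⟩ := ih _ hj
      refine ⟨(y + 2 * j) / 5, EE_back h0 h2 ?_, ?_, ?_⟩
      · convert hy using 1; ring
      · intro h; apply hne; linarith
      · have : (y + 2 * j) / 5 - x = (1 / 5) * (y - (5 * x - 2 * j)) := by ring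
        rw [this, abs_mul, abs_of_pos (by norm_num : (0 : ℝ) < 1 / 5), pow_succ]
        nlinarith
  intro x hx ε hε
  obtain ⟨n, hn⟩ := exists_pow_lt_of_lt_one hε (by norm_num : (1 / 5 : ℝ) < 1)
  obtain ⟨y, h1, h2, h3⟩ := key n x hx
  exact ⟨y, h1, h2, h3.trans_lt hn⟩

theorem EE_gap : ∀ u v : ℝ, u < v → ∃ z, u < z ∧ z < v ∧ z ∉ EE := by
  have key : ∀ n : ℕ, ∀ u v : ℝ, u < v → (∀ z, u < z → z < v → z ∈ EE) → v - u ≤ (1 / 5) ^ n := by
    intro n
    induction n with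
    | zero =>
      intro u v huv h
      rw [pow_zero]
      by_contra hc
      push Not at hc
      -- choose points near both ends
      have h1 := EE_sub (h (u + (v - u - 1) / 4) (by linarith) (by linarith))
      have h2 := EE_sub (h (v - (v - u - 1) / 4) (by linarith) (by linarith))
      linarith [h1.1, h2.2]
    | succ n ih =>
      intro u v huv h
      -- the interval misses the gaps
      have hg : ∀ z ∈ EE, ∃ j : ℤ, 0 ≤ j ∧ j ≤ 2 ∧ (2 * j : ℝ) / 5 ≤ z ∧ z ≤ (2 * j + 1) / 5 ∧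
          5 * z - 2 * j ∈ EE := by
        intro z hz
        obtain ⟨j, h1, h2, h3⟩ := EE_step hz
        obtain ⟨h4, h5⟩ := EE_sub h3
        exact ⟨j, h1, h2, by linarith, by linarith, h3⟩
      let m : ℝ := (u + v) / 2
      have hm : m ∈ EE := h m (by simp only [m]; linarith) (by simp only [m]; linarith)
      obtain ⟨j, h0, h2, h3, h4, -⟩ := hg m hm
      -- all points of the interval are in the same piece
      have hall : ∀ z, u < z → z < v → (2 * j : ℝ) / 5 ≤ z ∧ z ≤ (2 * j + 1) / 5 := by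
        intro z hz1 hz2
        by_contra hc
        -- a point in a gap between `z` and `m`
        have hz := h z hz1 hz2
        obtain ⟨i, i0, i2, i3, i4, -⟩ := hg z hz
        have hij : i ≠ j := by
          rintro rfl; exact hc ⟨i3, i4⟩
        rcases lt_or_gt_of_ne hij with hlt | hlt
        · have hlt' : (i : ℝ) + 1 ≤ j := by exact_mod_cast hlt
          have hw := h ((2 * i + 3 / 2) / 5) (by linarith) (by
            have : m < v := by simp only [m]; linarith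
            linarith)
          obtain ⟨k, -, -, k3, k4, -⟩ := hg _ hw
          have e1 : (k : ℝ) < i + 1 := by linarith
          have e2 : (i : ℝ) < k := by linarith
          have e3 : k < i + 1 := by exact_mod_cast e1
          have e4 : i < k := by exact_mod_cast e2
          omega
        · have hlt' : (j : ℝ) + 1 ≤ i := by exact_mod_cast hlt
          have hw := h ((2 * j + 3 / 2) / 5) (by
            have : u < m := by simp only [m]; linarith
            linarith) (by linarith)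
          obtain ⟨k, -, -, k3, k4, -⟩ := hg _ hw
          have e1 : (k : ℝ) < j + 1 := by linarith
          have e2 : (j : ℝ) < k := by linarith
          have e3 : k < j + 1 := by exact_mod_cast e1
          have e4 : j < k := by exact_mod_cast e2
          omega
      have := ih (5 * u - 2 * j) (5 * v - 2 * j) (by linarith) (by
        intro z hz1 hz2
        have hw := h ((z + 2 * j) / 5) (by linarith) (by linarith)
        obtain ⟨k, -, -, k3, k4, k5⟩ := hg _ hw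
        obtain ⟨b1, b2⟩ := hall ((z + 2 * j) / 5) (by linarith) (by linarith)
        have e1 : (k : ℝ) < j + 1 := by linarith
        have e2 : (j : ℝ) < k + 1 := by linarith
        have e3 : k < j + 1 := by exact_mod_cast e1
        have e4 : j < k + 1 := by exact_mod_cast e2
        have e5 : k = j := by omega
        rw [e5] at k5
        convert k5 using 1
        ring)
      rw [pow_succ]
      linarith
  intro u v huv
  by_contra hc
  push Not at hc
  obtain ⟨n, hn⟩ := exists_pow_lt_of_lt_one (sub_pos.2 huv) (by norm_num : (1 / 5 : ℝ) < 1)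
  exact absurd (key n u v huv hc) (not_le.2 hn)

/-! ### The `2`-periodic set -/

/-- the `2`-periodic union of copies of `EE` -/
def LL : Set ℝ := {x | ∃ m : ℤ, x - 2 * m ∈ EE}

theorem LL_shift (x : ℝ) (k : ℤ) : x + 2 * k ∈ LL ↔ x ∈ LL := by
  constructor
  · rintro ⟨m, hm⟩
    exact ⟨m - k, by push_cast; convert hm using 1; ring⟩
  · rintro ⟨m, hm⟩
    exact ⟨m + k, by push_cast; convert hm using 1; ring⟩

theorem LL_add_two (x : ℝ) : x + 2 ∈ LL ↔ x ∈ LL := by
  have := LL_shift x 1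
  simpa using this

theorem zero_mem_LL : (0 : ℝ) ∈ LL := ⟨0, by simpa using zero_mem_EE⟩

/-- `EE` in terms of `LL`: the affine maps `u ↦ (u + 2 k) / 5` send `LL` to `EE` -/
theorem mem_EE_iff {x : ℝ} : x ∈ EE ↔ (0 ≤ x ∧ x ≤ 1) ∧ 5 * x ∈ LL := by
  constructor
  · intro h
    obtain ⟨j, -, -, h3⟩ := EE_step h
    exact ⟨EE_sub h, j, h3⟩
  · rintro ⟨⟨h1, h2⟩, m, hm⟩
    obtain ⟨h3, h4⟩ := EE_sub hm
    have e1 : (-1 : ℝ) < m := by linarith
    have e2 : (m : ℝ) < 3 := by linarith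
    have e3 : -1 < m := by exact_mod_cast e1
    have e4 : m < 3 := by exact_mod_cast e2
    exact EE_back (j := m) (by omega) (by omega) hm

theorem mem_LL_of_mem_Icc {x : ℝ} (h0 : 0 ≤ x) (h1 : x ≤ 1) : x ∈ LL ↔ x ∈ EE := by
  constructor
  · rintro ⟨m, hm⟩
    obtain ⟨h3, h4⟩ := EE_sub hm
    have e1 : (-1 : ℝ) < m := by linarith
    have e2 : (m : ℝ) < 1 := by linarith
    have e3 : -1 < m := by exact_mod_cast e1
    have e4 : m < 1 := by exact_mod_cast e2
    have e5 : m = 0 := by omega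
    rw [e5] at hm
    simpa using hm
  · intro h
    exact ⟨0, by simpa using h⟩

theorem pp_mem_LL {u : ℝ} (h : u ∈ Ico (-2 : ℝ) 6) : pp u ∈ LL ↔ u ∈ LL := by
  obtain ⟨h1, h2⟩ := h
  unfold pp
  split_ifs with c1 c2 c3
  · rw [mem_LL_of_mem_Icc (by linarith) (by linarith), mem_EE_iff]
    rw [show 5 * ((u + 2) / 5) = u + 2 by ring, LL_add_two]
    constructor
    · exact fun h => h.2
    · intro h; exact ⟨⟨by linarith, by linarith⟩, h⟩
  · have := LL_add_two (u - 2)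
    rw [show u - 2 + 2 = u by ring] at this
    exact this.symm
  · push Not at c1 c2
    have e1 : u ∈ LL ↔ u - 4 ∈ EE := by
      rw [← mem_LL_of_mem_Icc (x := u - 4) (by linarith) (by linarith)]
      have := LL_shift (u - 4) 2
      rw [show u - 4 + 2 * ((2 : ℤ) : ℝ) = u by push_cast; ring] at this
      exact this
    rw [e1, mem_EE_iff]
    have e2 : 5 * (u - 4) ∈ LL ↔ 5 * u - 18 ∈ LL := by
      have := LL_add_two (5 * (u - 4))
      rw [show 5 * (u - 4) + 2 = 5 * u - 18 by ring] at this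
      exact this.symm
    rw [e2]
    constructor
    · intro h; exact ⟨⟨by linarith, by linarith⟩, h⟩
    · exact fun h => h.2
  · exact LL_add_two u

theorem aa_mem_LL (x : ℝ) : aa x ∈ LL ↔ x ∈ LL := by
  rw [aa_apply]
  unfold aFun
  have h := pp_mem_LL (ci_mem x)
  have e1 := LL_shift (pp (x - 8 * ci x)) (4 * ci x)
  have e2 := LL_shift (x - 8 * ci x) (4 * ci x)
  rw [show pp (x - 8 * ci x) + 2 * ((4 * ci x : ℤ) : ℝ) = 8 * ci x + pp (x - 8 * ci x) by
    push_cast; ring] at e1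
  rw [show x - 8 * ci x + 2 * ((4 * ci x : ℤ) : ℝ) = x by push_cast; ring] at e2
  rw [e1, h, ← e2]

theorem bb_mem_LL (x : ℝ) : bb x ∈ LL ↔ x ∈ LL := by
  rw [bb_apply, LL_add_two, ← aa_apply, aa_mem_LL, ← LL_add_two (x - 2)]
  rw [show x - 2 + 2 = x by ring]

/-! ### Periodic sets and compressed sets: general properties -/

/-- the perfectness property -/
def Pf (K : Set ℝ) : Prop := ∀ x ∈ K, ∀ ε > 0, ∃ y ∈ K, y ≠ x ∧ |y - x| < ε

/-- the complement is dense -/
def Dn (K : Set ℝ) : Prop := ∀ u v : ℝ, u < v → ∃ z, u < z ∧ z < v ∧ z ∉ K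

/-- unbounded in both directions -/
def Ub (K : Set ℝ) : Prop := ∀ x : ℝ, (∃ y ∈ K, x < y) ∧ (∃ y ∈ K, y < x)

/-- the `p`-periodic union of the translates of `A` -/
def per (p : ℝ) (A : Set ℝ) : Set ℝ := {x | ∃ m : ℤ, x - p * m ∈ A}

theorem LL_eq : LL = per 2 EE := rfl

theorem per_closed {p : ℝ} (hp : 1 ≤ p) {A : Set ℝ} (hA : IsClosed A) {r : ℝ}
    (hr : ∀ x ∈ A, |x| ≤ r) : IsClosed (per p A) := by
  have h1 : per p A = ⋃ m : ℤ, {x | x - p * m ∈ A} := by
    ext x; simp [per]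
  rw [h1]
  refine LocallyFinite.isClosed_iUnion ?_ (fun m => hA.preimage (by fun_prop))
  intro x
  refine ⟨Metric.ball x 1, Metric.ball_mem_nhds x one_pos, ?_⟩
  refine (Set.finite_Icc (⌊-(|x| + r + 1)⌋) (⌈|x| + r + 1⌉)).subset ?_
  rintro m ⟨y, hy, hyx⟩
  have h2 := hr _ hy
  rw [Metric.mem_ball, Real.dist_eq] at hyx
  have h3 : |p * m| ≤ |x| + r + 1 := by
    have e : p * m = x + (y - x) - (y - p * m) := by ring
    rw [e]
    calc |x + (y - x) - (y - p * m)| ≤ |x + (y - x)| + |y - p * m| := abs_sub _ _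
      _ ≤ |x| + |y - x| + |y - p * m| := by gcongr; exact abs_add_le _ _
      _ ≤ |x| + 1 + r := by linarith
      _ = |x| + r + 1 := by ring
  have h4 : |(m : ℝ)| ≤ |x| + r + 1 := by
    refine le_trans ?_ h3
    rw [abs_mul, abs_of_pos (by linarith : 0 < p)]
    nlinarith [abs_nonneg (m : ℝ)]
  obtain ⟨h5, h6⟩ := abs_le.1 h4
  rw [mem_Icc]
  constructor
  · have : ((⌊-(|x| + r + 1)⌋ : ℤ) : ℝ) ≤ m := (Int.floor_le _).trans h5
    exact_mod_cast this
  · have : (m : ℝ) ≤ ((⌈|x| + r + 1⌉ : ℤ) : ℝ) := h6.trans (Int.le_ceil _)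
    exact_mod_cast this

theorem per_Pf {p : ℝ} {A : Set ℝ} (h : Pf A) : Pf (per p A) := by
  rintro x ⟨m, hm⟩ ε hε
  obtain ⟨y, hy, hne, hd⟩ := h _ hm ε hε
  refine ⟨y + p * m, ⟨m, by convert hy using 1; ring⟩, ?_, ?_⟩
  · intro h; apply hne; rw [← h]; ring
  · convert hd using 2; ring

theorem per_Ub {p : ℝ} (hp : 0 < p) {A : Set ℝ} (h : A.Nonempty) : Ub (per p A) := by
  obtain ⟨a, ha⟩ := h
  intro x
  constructor
  · obtain ⟨n, hn⟩ := exists_int_gt ((x - a) / p)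
    rw [div_lt_iff₀ hp] at hn
    exact ⟨a + p * n, ⟨n, by simpa using ha⟩, by linarith⟩
  · obtain ⟨n, hn⟩ := exists_int_lt ((x - a) / p)
    rw [lt_div_iff₀ hp] at hn
    exact ⟨a + p * n, ⟨n, by simpa using ha⟩, by linarith⟩

/-- density of the complement for periodic unions with room between the translates -/
theorem per_Dn {p l : ℝ} (hp : 0 < p) {A : Set ℝ} (hA : ∀ x ∈ A, l ≤ x ∧ x < l + p)
    (h : Dn A) : Dn (per p A) := by
  intro u v huv
  let n : ℤ := ⌊(u - l) / p⌋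
  have h1 : (n : ℝ) * p ≤ u - l := by
    have := Int.floor_le ((u - l) / p)
    rwa [le_div_iff₀ hp] at this
  have h2 : u - l < (n + 1) * p := by
    have := Int.lt_floor_add_one ((u - l) / p)
    rwa [div_lt_iff₀ hp] at this
  obtain ⟨z, h3, h4, h5⟩ := h (u - p * n) (min v (l + p * (n + 1)) - p * n) (by
    have : u < min v (l + p * (n + 1)) := lt_min huv (by linarith)
    linarith)
  have h6 : z + p * n < min v (l + p * (n + 1)) := by linarith
  refine ⟨z + p * n, by linarith, h6.trans_le (min_le_left _ _), ?_⟩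
  rintro ⟨m, hm⟩
  obtain ⟨h7, h8⟩ := hA _ hm
  have h9 := h6.trans_le (min_le_right _ _)
  have e1 : (m : ℝ) < n + 1 := by
    have : p * m < p * (n + 1) := by linarith
    exact lt_of_mul_lt_mul_left this hp.le
  have e2 : (n : ℝ) < m + 1 := by
    have : p * n < p * (m + 1) := by linarith
    exact lt_of_mul_lt_mul_left this hp.le
  have e3 : m < n + 1 := by exact_mod_cast e1
  have e4 : n < m + 1 := by exact_mod_cast e2
  have e5 : m = n := by omega
  rw [e5] at hm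
  apply h5
  convert hm using 1
  ring

/-- the compression of a set into `[-1, 1]` -/
def cs (K : Set ℝ) : Set ℝ := {x | x = 1 ∨ x = -1 ∨ ∃ y ∈ K, ((sg y : Ioo (-1 : ℝ) 1) : ℝ) = x}

theorem cs_sub {K : Set ℝ} {x : ℝ} (h : x ∈ cs K) : -1 ≤ x ∧ x ≤ 1 := by
  rcases h with rfl | rfl | ⟨y, -, rfl⟩
  · constructor <;> norm_num
  · constructor <;> norm_num
  · exact ⟨(sg_mem y).1.le, (sg_mem y).2.le⟩

theorem sg_mem_cs {K : Set ℝ} {y : ℝ} : ((sg y : Ioo (-1 : ℝ) 1) : ℝ) ∈ cs K ↔ y ∈ K := by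
  constructor
  · rintro (h | h | ⟨z, hz, h⟩)
    · exact absurd h (sg_mem y).2.ne
    · exact absurd h (sg_mem y).1.ne'
    · rw [Subtype.coe_inj, EquivLike.apply_eq_iff_eq] at h
      rwa [← h]
  · intro h; exact Or.inr (Or.inr ⟨y, h, rfl⟩)

theorem cmp_mem_cs {K : Set ℝ} {F : ℝ ≃o ℝ} (hF : ∀ y, F y ∈ K ↔ y ∈ K) (x : ℝ) :
    cmp F x ∈ cs K ↔ x ∈ cs K := by
  by_cases h : x ∈ Ioo (-1 : ℝ) 1
  · obtain ⟨y, rfl⟩ := exists_sg h
    rw [cmp_sg, sg_mem_cs, sg_mem_cs, hF]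
  · rw [cmp_of_notMem F h]

theorem continuous_sg : Continuous fun y : ℝ => ((sg y : Ioo (-1 : ℝ) 1) : ℝ) :=
  continuous_subtype_val.comp (sg.toHomeomorph.continuous)

theorem cs_closed {K : Set ℝ} (hK : IsClosed K) : IsClosed (cs K) := by
  have h1 : cs K = (Iio (-1) ∪ Ioi 1 ∪ (Subtype.val '' (sg.toHomeomorph '' Kᶜ)))ᶜ := by
    ext x
    constructor
    · intro hx
      obtain ⟨h1, h2⟩ := cs_sub hx
      rintro ((h3 | h3) | ⟨_, ⟨y, hy, rfl⟩, rfl⟩)
      · exact absurd (mem_Iio.1 h3) (not_lt.2 h1)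
      · exact absurd (mem_Ioi.1 h3) (not_lt.2 h2)
      · exact hy (sg_mem_cs.1 hx)
    · intro hx
      by_cases h : x ∈ Ioo (-1 : ℝ) 1
      · obtain ⟨y, rfl⟩ := exists_sg h
        rw [sg_mem_cs]
        by_contra hy
        exact hx (Or.inr ⟨_, ⟨y, hy, rfl⟩, rfl⟩)
      · by_cases h1 : x < -1
        · exact absurd (Or.inl (Or.inl h1)) hx
        by_cases h2 : 1 < x
        · exact absurd (Or.inl (Or.inr h2)) hx
        push Not at h1 h2
        rcases eq_or_lt_of_le h1 with h3 | h3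
        · exact Or.inr (Or.inl h3.symm)
        · rcases eq_or_lt_of_le h2 with h4 | h4
          · exact Or.inl h4
          · exact absurd ⟨h3, h4⟩ h
  rw [h1, isClosed_compl_iff]
  refine (isOpen_Iio.union isOpen_Ioi).union ?_
  apply isOpen_Ioo.isOpenMap_subtype_val
  exact sg.toHomeomorph.isOpenMap _ hK.isOpen_compl

theorem cs_Dn {K : Set ℝ} (h : Dn K) : Dn (cs K) := by
  intro u v huv
  by_cases h1 : u < -1
  · refine ⟨(u + min v (-1)) / 2, ?_, ?_, ?_⟩
    · have := lt_min huv h1; linarith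
    · have := lt_min huv h1
      have := min_le_left v (-1)
      linarith
    · intro hc
      have := (cs_sub hc).1
      have := min_le_right v (-1)
      linarith
  push Not at h1
  by_cases h2 : 1 < v
  · refine ⟨(v + max u 1) / 2, ?_, ?_, ?_⟩
    · have := max_lt huv h2
      have := le_max_left u 1
      linarith
    · have := max_lt huv h2
      linarith
    · intro hc
      have := (cs_sub hc).2
      have := le_max_right u 1
      have := max_lt huv h2
      linarith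
  push Not at h2
  have m1 : (2 * u + v) / 3 ∈ Ioo (-1 : ℝ) 1 := ⟨by linarith, by linarith⟩
  have m2 : (u + 2 * v) / 3 ∈ Ioo (-1 : ℝ) 1 := ⟨by linarith, by linarith⟩
  obtain ⟨y1, hy1⟩ := exists_sg m1
  obtain ⟨y2, hy2⟩ := exists_sg m2
  have hy : y1 < y2 := by
    rw [← sg_lt, hy1, hy2]; linarith
  obtain ⟨z, hz1, hz2, hz3⟩ := h y1 y2 hy
  refine ⟨((sg z : Ioo (-1 : ℝ) 1) : ℝ), ?_, ?_, ?_⟩
  · have := sg_lt.2 hz1; rw [hy1] at this; linarith
  · have := sg_lt.2 hz2; rw [hy2] at this; linarith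
  · rw [sg_mem_cs]; exact hz3

theorem cs_Pf {K : Set ℝ} (h : Pf K) (hU : Ub K) : Pf (cs K) := by
  rintro x (rfl | rfl | ⟨y, hy, rfl⟩) ε hε
  · -- the point `1`
    have m1 : max (1 - ε) 0 ∈ Ioo (-1 : ℝ) 1 :=
      ⟨lt_of_lt_of_le (by norm_num) (le_max_right _ _), max_lt (by linarith) (by norm_num)⟩
    obtain ⟨w, hw⟩ := exists_sg m1
    obtain ⟨k, hk, hwk⟩ := (hU w).1
    refine ⟨_, sg_mem_cs.2 hk, (sg_mem k).2.ne, ?_⟩
    have h1 := sg_lt.2 hwk
    rw [hw] at h1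
    have h2 := (sg_mem k).2
    have h3 := le_max_left (1 - ε) 0
    rw [abs_lt]; constructor <;> linarith
  · have m1 : min (-1 + ε) 0 ∈ Ioo (-1 : ℝ) 1 :=
      ⟨lt_min (by linarith) (by norm_num), lt_of_le_of_lt (min_le_right _ _) (by norm_num)⟩
    obtain ⟨w, hw⟩ := exists_sg m1
    obtain ⟨k, hk, hwk⟩ := (hU w).2
    refine ⟨_, sg_mem_cs.2 hk, (sg_mem k).1.ne', ?_⟩
    have h1 := sg_lt.2 hwk
    rw [hw] at h1
    have h2 := (sg_mem k).1
    have h3 := min_le_left (-1 + ε) 0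
    rw [abs_lt]; constructor <;> linarith
  · obtain ⟨δ, hδ, hc⟩ := Metric.continuous_iff.1 continuous_sg y ε hε
    obtain ⟨z, hz, hne, hd⟩ := h y hy δ hδ
    refine ⟨_, sg_mem_cs.2 hz, ?_, ?_⟩
    · intro he
      rw [Subtype.coe_inj, EquivLike.apply_eq_iff_eq] at he
      exact hne he
    · have := hc z (by rwa [Real.dist_eq])
      rwa [Real.dist_eq] at this

/-! ### The concrete sets -/

/-- the compression of `LL` -/
def C0 : Set ℝ := cs LL

/-- the `4`-periodic union of copies of `C0` -/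
def KK : Set ℝ := per 4 C0

/-- the final Cantor set on the line: the compression of `KK` -/
def CT : Set ℝ := cs KK

theorem LL_Pf : Pf LL := per_Pf EE_perfect

theorem LL_Dn : Dn LL := per_Dn (l := 0) (by norm_num) (fun x hx => by
  obtain ⟨h1, h2⟩ := EE_sub hx
  constructor <;> linarith) EE_gap

theorem LL_Ub : Ub LL := per_Ub (by norm_num) ⟨0, zero_mem_EE⟩

theorem LL_closed : IsClosed LL := per_closed (by norm_num) isClosed_EE (r := 1) (fun x hx => by
  obtain ⟨h1, h2⟩ := EE_sub hx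
  rw [abs_le]; constructor <;> linarith)

theorem KK_Pf : Pf KK := per_Pf (cs_Pf LL_Pf LL_Ub)

theorem KK_Dn : Dn KK := per_Dn (l := -2) (by norm_num) (fun x hx => by
  obtain ⟨h1, h2⟩ := cs_sub hx
  constructor <;> linarith) (cs_Dn LL_Dn)

theorem KK_Ub : Ub KK := per_Ub (by norm_num) ⟨1, Or.inl rfl⟩

theorem KK_closed : IsClosed KK := per_closed (by norm_num) (cs_closed LL_closed) (r := 1)
  (fun x hx => by
    obtain ⟨h1, h2⟩ := cs_sub hx
    rw [abs_le]; constructor <;> linarith)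

theorem CT_closed : IsClosed CT := cs_closed KK_closed

theorem CT_sub {x : ℝ} (h : x ∈ CT) : -1 ≤ x ∧ x ≤ 1 := cs_sub h

theorem CT_Dn : Dn CT := cs_Dn KK_Dn

theorem CT_Pf : Pf CT := cs_Pf KK_Pf KK_Ub

theorem CT_good : Pool.Agent.H812R3.CantorChar.Good CT :=
  ⟨(isCompact_Icc (a := (-1 : ℝ)) (b := 1)).of_isClosed_subset CT_closed
    (fun _ hx => CT_sub hx), ⟨1, Or.inl rfl⟩, CT_Pf, CT_Dn⟩

/-- `KK` near the origin is `C0` -/
theorem mem_KK_of_mem {x : ℝ} (h : x ∈ Ioo (-1 : ℝ) 1) : x ∈ KK ↔ x ∈ C0 := by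
  constructor
  · rintro ⟨m, hm⟩
    obtain ⟨h1, h2⟩ := cs_sub hm
    obtain ⟨h3, h4⟩ := h
    have e1 : (-1 : ℝ) < m := by linarith
    have e2 : (m : ℝ) < 1 := by linarith
    have e3 : -1 < m := by exact_mod_cast e1
    have e4 : m < 1 := by exact_mod_cast e2
    have e5 : m = 0 := by omega
    rw [e5] at hm
    simpa using hm
  · intro h
    exact ⟨0, by simpa using h⟩

theorem cmp_mem_Ioo {F : ℝ ≃o ℝ} {x : ℝ} (h : x ∈ Ioo (-1 : ℝ) 1) : cmp F x ∈ Ioo (-1 : ℝ) 1 := by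
  obtain ⟨y, rfl⟩ := exists_sg h
  rw [cmp_sg]
  exact sg_mem _

/-- the compression of an automorphism of `LL` preserves `KK` -/
theorem cmp_mem_KK {F : ℝ ≃o ℝ} (hF : ∀ y, F y ∈ LL ↔ y ∈ LL) (x : ℝ) :
    cmp F x ∈ KK ↔ x ∈ KK := by
  by_cases h : x ∈ Ioo (-1 : ℝ) 1
  · rw [mem_KK_of_mem h, mem_KK_of_mem (cmp_mem_Ioo h)]
    exact cmp_mem_cs hF x
  · rw [cmp_of_notMem F h]

theorem tr_mem_KK (x : ℝ) : tr 4 x ∈ KK ↔ x ∈ KK := by
  rw [tr_apply]
  constructor
  · rintro ⟨m, hm⟩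
    exact ⟨m - 1, by push_cast; convert hm using 1; ring⟩
  · rintro ⟨m, hm⟩
    exact ⟨m + 1, by push_cast; convert hm using 1; ring⟩

/-- the double compression of an automorphism of `LL` preserves `CT` -/
theorem cmpcmp_mem_CT {F : ℝ ≃o ℝ} (hF : ∀ y, F y ∈ LL ↔ y ∈ LL) (x : ℝ) :
    cmp (cmp F) x ∈ CT ↔ x ∈ CT := cmp_mem_cs (cmp_mem_KK hF) x

theorem cmptr_mem_CT (x : ℝ) : cmp (tr 4) x ∈ CT ↔ x ∈ CT := cmp_mem_cs tr_mem_KK x

/-- the copy of `LL` in `CT` -/
theorem sgsg_mem_CT {y : ℝ} (h : y ∈ LL) :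
    ((sg ((sg y : Ioo (-1 : ℝ) 1) : ℝ) : Ioo (-1 : ℝ) 1) : ℝ) ∈ CT := by
  rw [CT, sg_mem_cs, mem_KK_of_mem (sg_mem y), C0, sg_mem_cs]
  exact h

end Pool.Agent.H743.CM
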